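import Mathlib

/-!
The Gelfand–Kazhdan argument for a twisted pair `(G, H, ψ)`, `G`, `H` finite.
-/

open Module

namespace Pool.Agent.H4.TwistedPeriod

variable {G H W : Type*} [Group G] [Group H] [AddCommGroup W] [Module ℂ W]

/-- The space of linear functionals `ℓ` on `W` with `ℓ (π (ι h) v) = ψ h * ℓ v`. -/
def twistedHom (π : Representation ℂ G W) (ι : H →* G) (ψ : H →* ℂˣ) :
    Submodule ℂ (W →ₗ[ℂ] ℂ) where
  carrier := {ℓ | ∀ (h : H) (v : W), ℓ (π (ι h) v) = (ψ h : ℂ) * ℓ v}
  zero_mem' := fun h v => by simp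
  add_mem' := fun {x y} hx hy h v => by
    rw [LinearMap.add_apply, LinearMap.add_apply, hx h v, hy h v, mul_add]
  smul_mem' := fun c x hx h v => by
    rw [LinearMap.smul_apply, LinearMap.smul_apply, hx h v, smul_eq_mul, smul_eq_mul]
    ring

/-- an irreducible representation is spanned by the orbit of any nonzero vector -/
lemma span_orbit (π : Representation ℂ G W) [π.IsIrreducible] {v : W} (hv : v ≠ 0) :
    Submodule.span ℂ (Set.range fun g : G => π g v) = ⊤ := by
  let S : Subrepresentation π :=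
    { toSubmodule := Submodule.span ℂ (Set.range fun g : G => π g v)
      apply_mem_toSubmodule := by
        intro g w hw
        induction hw using Submodule.span_induction with
        | mem x hx =>
          obtain ⟨g', rfl⟩ := hx
          refine Submodule.subset_span ⟨g * g', ?_⟩
          simp [map_mul]
        | zero => rw [map_zero]; exact Submodule.zero_mem _
        | add x y _ _ hx hy => rw [map_add]; exact Submodule.add_mem _ hx hy
        | smul c x _ hx => rw [map_smul]; exact Submodule.smul_mem _ _ hx }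
  rcases eq_bot_or_eq_top S with h | h
  · exfalso
    apply hv
    have h1 : v ∈ S.toSubmodule := Submodule.subset_span ⟨1, by simp⟩
    have h2 : v ∈ (⊥ : Subrepresentation π).toSubmodule := h ▸ h1
    exact h2
  · have : S.toSubmodule = (⊤ : Subrepresentation π).toSubmodule := by rw [h]
    exact this

lemma finiteDimensional_of_irreducible [Finite G] (π : Representation ℂ G W) [π.IsIrreducible] :
    FiniteDimensional ℂ W := by
  rcases subsingleton_or_nontrivial W with h | h
  · infer_instance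
  · obtain ⟨v, hv⟩ := exists_ne (0 : W)
    refine ⟨⟨(Set.finite_range fun g : G => π g v).toFinset, ?_⟩⟩
    rw [Set.Finite.coe_toFinset]
    exact span_orbit π hv

theorem gelfand [Finite G] [Finite H] (ι : H →* G) (ψ : H →* ℂˣ)
    (τ : G → G) (hτ : ∀ x y, τ (x * y) = τ y * τ x)
    (τH : H → H) (hτH : Function.Bijective τH) (hι : ∀ h, τ (ι h) = ι (τH h))
    (hψ : ∀ h, ψ (τH h) = ψ h)
    (hdc : ∀ g, ∃ h₁ h₂ : H, τ g = ι h₁ * g * ι h₂ ∧ ψ h₁ * ψ h₂ = 1)
    (π : Representation ℂ G W) [π.IsIrreducible] :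
    Module.rank ℂ (twistedHom π ι ψ) ≤ 1 := by
  classical
  have : Fintype H := Fintype.ofFinite H
  have hfd : FiniteDimensional ℂ W := finiteDimensional_of_irreducible π
  set c : ℂ := (Fintype.card H : ℂ)⁻¹ with hc
  have hc0 : (Fintype.card H : ℂ) ≠ 0 := by
    exact_mod_cast Fintype.card_ne_zero
  set S : Module.End ℂ W := ∑ k : H, ((ψ k : ℂ))⁻¹ • π (ι k) with hS
  set P : Module.End ℂ W := c • S with hP
  -- equivariance of `P`
  have hSr : ∀ h : H, S * π (ι h) = (ψ h : ℂ) • S := by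
    intro h
    rw [hS, Finset.sum_mul, Finset.smul_sum]
    rw [← Equiv.sum_comp (Equiv.mulRight h)
      (fun k => (ψ h : ℂ) • ((ψ k : ℂ))⁻¹ • π (ι k))]
    refine Finset.sum_congr rfl fun k _ => ?_
    simp only [Equiv.coe_mulRight]
    rw [map_mul ι, map_mul π, smul_mul_assoc, smul_smul, map_mul ψ, Units.val_mul]
    congr 1
    have h1 : (ψ h : ℂ) ≠ 0 := (ψ h).ne_zero
    have h2 : (ψ k : ℂ) ≠ 0 := (ψ k).ne_zero
    field_simp
  have hSl : ∀ h : H, π (ι h) * S = (ψ h : ℂ) • S := by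
    intro h
    rw [hS, Finset.mul_sum, Finset.smul_sum]
    rw [← Equiv.sum_comp (Equiv.mulLeft h)
      (fun k => (ψ h : ℂ) • ((ψ k : ℂ))⁻¹ • π (ι k))]
    refine Finset.sum_congr rfl fun k _ => ?_
    simp only [Equiv.coe_mulLeft]
    rw [map_mul ι, map_mul π, mul_smul_comm, smul_smul, map_mul ψ, Units.val_mul]
    congr 1
    have h1 : (ψ h : ℂ) ≠ 0 := (ψ h).ne_zero
    have h2 : (ψ k : ℂ) ≠ 0 := (ψ k).ne_zero
    field_simp
  have hPr : ∀ h : H, P * π (ι h) = (ψ h : ℂ) • P := by
    intro h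
    rw [hP, smul_mul_assoc, hSr, smul_comm]
  have hPl : ∀ h : H, π (ι h) * P = (ψ h : ℂ) • P := by
    intro h
    rw [hP, mul_smul_comm, hSl, smul_comm]
  have hPP : P * P = P := by
    have e1 : P * P = c • (S * P) := by rw [← smul_mul_assoc]
    rw [e1, hS, Finset.sum_mul]
    have : ∀ k : H, ((ψ k : ℂ))⁻¹ • π (ι k) * P = P := by
      intro k
      rw [smul_mul_assoc, hPl, smul_smul, inv_mul_cancel₀ (ψ k).ne_zero, one_smul]
    simp only [this]
    rw [Finset.sum_const, Finset.card_univ, ← Nat.cast_smul_eq_nsmul ℂ, smul_smul, hc,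
      inv_mul_cancel₀ hc0, one_smul]
  set T : G → Module.End ℂ W := fun g => P * π g * P with hT
  have hTdc : ∀ (h₁ h₂ : H) (g : G), T (ι h₁ * g * ι h₂) = ((ψ h₁ : ℂ) * (ψ h₂ : ℂ)) • T g := by
    intro h₁ h₂ g
    simp only [hT]
    rw [map_mul π, map_mul π]
    calc P * (π (ι h₁) * π g * π (ι h₂)) * P
        = (P * π (ι h₁)) * π g * (π (ι h₂) * P) := by simp only [mul_assoc]
      _ = ((ψ h₁ : ℂ) • P) * π g * ((ψ h₂ : ℂ) • P) := by rw [hPr, hPl]
      _ = ((ψ h₁ : ℂ) * (ψ h₂ : ℂ)) • (P * π g * P) := by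
          rw [smul_mul_assoc, smul_mul_assoc, mul_smul_comm, smul_smul]
  have hTτ : ∀ g, T (τ g) = T g := by
    intro g
    obtain ⟨h₁, h₂, h3, h4⟩ := hdc g
    rw [h3, hTdc, ← Units.val_mul, h4, Units.val_one, one_smul]
  have hTT : ∀ g g', T g * T g' = c • ∑ k : H, ((ψ k : ℂ))⁻¹ • T (g * ι k * g') := by
    intro g g'
    have e1 : T g * T g' = P * π g * (P * P) * π g' * P := by
      simp only [hT, mul_assoc]
    rw [e1, hPP]
    have e2 : P * π g * P * π g' * P = P * π g * (c • ∑ k : H, ((ψ k : ℂ))⁻¹ • π (ι k)) *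
        (π g' * P) := by
      rw [← hP, mul_assoc _ (π g') P]
    rw [e2, mul_smul_comm, smul_mul_assoc, Finset.mul_sum, Finset.sum_mul]
    congr 1
    refine Finset.sum_congr rfl fun k _ => ?_
    rw [mul_smul_comm, smul_mul_assoc]
    congr 1
    simp only [hT]
    rw [map_mul π, map_mul π]
    simp only [mul_assoc]
  have hcomm : ∀ g g', T g * T g' = T g' * T g := by
    intro g g'
    rw [hTT]
    have e1 : ∀ k : H, ((ψ k : ℂ))⁻¹ • T (g * ι k * g') =
        ((ψ (τH k) : ℂ))⁻¹ • T (τ g' * ι (τH k) * τ g) := by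
      intro k
      rw [hψ, ← hTτ, hτ, hτ, hι, mul_assoc]
    simp only [e1]
    have e2 := hTT (τ g') (τ g)
    rw [hTτ, hTτ] at e2
    rw [e2]
    congr 1
    rw [← (Equiv.ofBijective τH hτH).sum_comp
      (fun k => ((ψ k : ℂ))⁻¹ • T (τ g' * ι k * τ g))]
    rfl
  -- range of `P`
  have hPfix : ∀ v ∈ LinearMap.range P, P v = v := by
    rintro v ⟨w, rfl⟩
    exact LinearMap.congr_fun hPP w
  have hgen : ∀ v ∈ LinearMap.range P, v ≠ 0 →
      LinearMap.range P ≤ Submodule.span ℂ (Set.range fun g : G => T g v) := by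
    rintro v hv hv0 w ⟨x, rfl⟩
    have hx : x ∈ Submodule.span ℂ (Set.range fun g : G => π g v) := by
      rw [span_orbit π hv0]; trivial
    induction hx using Submodule.span_induction with
    | mem x hx =>
      obtain ⟨g, rfl⟩ := hx
      refine Submodule.subset_span ⟨g, ?_⟩
      simp only [hT, Module.End.mul_apply]
      rw [hPfix v hv]
    | zero => rw [map_zero]; exact Submodule.zero_mem _
    | add x y _ _ hx hy => rw [map_add]; exact Submodule.add_mem _ hx hy
    | smul c x _ hx => rw [map_smul]; exact Submodule.smul_mem _ _ hx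
  -- each `T g` is scalar on the range of `P`
  have hTrange : ∀ g v, T g v ∈ LinearMap.range P := by
    intro g v
    exact ⟨π g (P v), by simp only [hT, Module.End.mul_apply]⟩
  have hscalar : ∀ g, ∃ μ : ℂ, ∀ v ∈ LinearMap.range P, T g v = μ • v := by
    intro g
    by_cases hbot : LinearMap.range P = ⊥
    · refine ⟨0, fun v hv => ?_⟩
      rw [hbot, Submodule.mem_bot] at hv
      rw [hv, map_zero, smul_zero]
    · have hnt : Nontrivial (LinearMap.range P) := by
        rw [Submodule.nontrivial_iff_ne_bot]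
        exact hbot
      let Tg : Module.End ℂ (LinearMap.range P) :=
        (T g).restrict (p := LinearMap.range P) (q := LinearMap.range P) (fun v _ => hTrange g v)
      obtain ⟨μ, hμ⟩ := Module.End.exists_eigenvalue Tg
      obtain ⟨⟨v, hv⟩, hvμ⟩ := hμ.exists_hasEigenvector
      have h1 : T g v = μ • v := congrArg Subtype.val hvμ.apply_eq_smul
      have hv0 : v ≠ 0 := fun h => hvμ.2 (Subtype.ext h)
      refine ⟨μ, fun w hw => ?_⟩
      have hall : ∀ w ∈ Submodule.span ℂ (Set.range fun g : G => T g v), T g w = μ • w := by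
        intro w hw'
        induction hw' using Submodule.span_induction with
        | mem x hx =>
          obtain ⟨g', rfl⟩ := hx
          change (T g * T g') v = _
          rw [hcomm, Module.End.mul_apply, h1, map_smul]
        | zero => rw [map_zero, smul_zero]
        | add x y hx hy hx' hy' => rw [map_add, smul_add, hx', hy']
        | smul c x _ hx => rw [map_smul, hx, smul_comm]
      exact hall w (hgen v hv hv0 hw)
  -- the range of `P` is at most one-dimensional
  have hline : ∀ v ∈ LinearMap.range P, v ≠ 0 → ∀ w ∈ LinearMap.range P, ∃ a : ℂ, w = a • v := by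
    intro v hv hv0 w hw
    have hw' := hgen v hv hv0 hw
    have hle : Submodule.span ℂ (Set.range fun g : G => T g v) ≤ Submodule.span ℂ {v} := by
      rw [Submodule.span_le]
      rintro x ⟨g, rfl⟩
      obtain ⟨μ, hμ⟩ := hscalar g
      simp only [SetLike.mem_coe]
      rw [hμ v hv]
      exact Submodule.smul_mem _ _ (Submodule.mem_span_singleton_self v)
    obtain ⟨a, ha⟩ := Submodule.mem_span_singleton.mp (hle hw')
    exact ⟨a, ha.symm⟩
  -- functionals are determined by their restriction to the range of `P`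
  have hℓ : ∀ ℓ ∈ twistedHom π ι ψ, ∀ w, ℓ w = ℓ (P w) := by
    intro ℓ hℓ w
    have h1 : ∀ k : H, ℓ (π (ι k) w) = (ψ k : ℂ) * ℓ w := fun k => hℓ k w
    have h2 : P w = c • ∑ k : H, ((ψ k : ℂ))⁻¹ • π (ι k) w := by
      rw [hP, LinearMap.smul_apply, hS, LinearMap.sum_apply]
      rfl
    rw [h2, map_smul, map_sum]
    have h3 : ∀ k : H, ℓ (((ψ k : ℂ))⁻¹ • π (ι k) w) = ℓ w := by
      intro k
      rw [map_smul, h1, smul_eq_mul, ← mul_assoc, inv_mul_cancel₀ (ψ k).ne_zero, one_mul]
    simp only [h3]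
    rw [Finset.sum_const, Finset.card_univ, nsmul_eq_mul, smul_eq_mul, ← mul_assoc, hc,
      inv_mul_cancel₀ hc0, one_mul]
  rw [rank_le_one_iff]
  by_cases hbot : ∀ w, P w = 0
  · refine ⟨0, fun ℓ => ⟨0, ?_⟩⟩
    apply Subtype.ext
    ext w
    rw [hℓ ℓ ℓ.2 w, hbot w]
    simp
  · push Not at hbot
    obtain ⟨w₀, hw₀⟩ := hbot
    set v := P w₀ with hv
    have hvr : v ∈ LinearMap.range P := ⟨w₀, rfl⟩
    by_cases hall : ∀ ℓ ∈ twistedHom π ι ψ, ℓ v = 0
    · refine ⟨0, fun ℓ => ⟨0, ?_⟩⟩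
      apply Subtype.ext
      ext w
      obtain ⟨a, ha⟩ := hline v hvr hw₀ (P w) ⟨w, rfl⟩
      rw [hℓ ℓ ℓ.2 w, ha, map_smul, hall ℓ ℓ.2]
      simp
    · push Not at hall
      obtain ⟨ℓ₀, hℓ₀, hne⟩ := hall
      refine ⟨⟨ℓ₀, hℓ₀⟩, fun ℓ => ⟨(ℓ : W →ₗ[ℂ] ℂ) v / ℓ₀ v, ?_⟩⟩
      apply Subtype.ext
      ext w
      obtain ⟨a, ha⟩ := hline v hvr hw₀ (P w) ⟨w, rfl⟩
      rw [hℓ ℓ ℓ.2 w, ha, map_smul]
      simp only [Submodule.coe_smul, LinearMap.smul_apply, smul_eq_mul]
      rw [hℓ ℓ₀ hℓ₀ w, ha, map_smul, smul_eq_mul]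
      field_simp

end Pool.Agent.H4.TwistedPeriod
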