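import Pool.Agent.H4.TwistedPeriod.Forms
import Pool.Agent.H4.TwistedPeriod.Gelfand

open Module

namespace Pool.Agent.H4.TwistedPeriod

/-- A Galois quadratic extension carries the data `QD`. -/
lemma exists_QD (F E : Type*) [Field F] [Field E] [Algebra F E] [IsGalois F E]
    (h2 : Module.finrank F E = 2) : Nonempty (QD F E) := by
  classical
  have hfd : FiniteDimensional F E := Module.finite_of_finrank_eq_succ h2
  have hcard : Nat.card (E ≃ₐ[F] E) = 2 := by rw [IsGalois.card_aut_eq_finrank, h2]
  have hfin : Finite (E ≃ₐ[F] E) := inferInstance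
  have : Nontrivial (E ≃ₐ[F] E) := by
    rw [← Finite.one_lt_card_iff_nontrivial, hcard]
    norm_num
  obtain ⟨σ, hσ⟩ := exists_ne (1 : E ≃ₐ[F] E)
  have hall : ∀ ρ : E ≃ₐ[F] E, ρ = 1 ∨ ρ = σ := by
    intro ρ
    by_contra hcon
    push Not at hcon
    have : Fintype (E ≃ₐ[F] E) := Fintype.ofFinite _
    have h3 : ({1, σ, ρ} : Finset (E ≃ₐ[F] E)).card ≤ Fintype.card (E ≃ₐ[F] E) :=
      Finset.card_le_univ _
    rw [← Nat.card_eq_fintype_card, hcard, Finset.card_eq_three.mpr
      ⟨1, σ, ρ, hσ.symm, hcon.1.symm, hcon.2.symm, rfl⟩] at h3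
    omega
  have hσσ : ∀ x, σ (σ x) = x := by
    intro x
    have h4 : σ * σ = 1 := by
      have := pow_card_eq_one' (x := σ)
      rwa [hcard, pow_two] at this
    exact AlgEquiv.congr_fun h4 x
  obtain ⟨j, hj⟩ : ∃ j, σ j ≠ j := by
    by_contra hcon
    push Not at hcon
    exact hσ (AlgEquiv.ext hcon)
  have hfix : ∀ x, σ x = x → ∃ a : F, algebraMap F E a = x := by
    intro x hx
    have : x ∈ (⊥ : IntermediateField F E) := by
      rw [IsGalois.mem_bot_iff_fixed]
      intro ρ
      rcases hall ρ with h | h
      · rw [h]; rfl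
      · rw [h, hx]
    exact IntermediateField.mem_bot.mp this
  obtain ⟨a, ha⟩ := hfix (j + σ j) (by rw [map_add, hσσ, add_comm])
  obtain ⟨b, hb⟩ := hfix (j * σ j) (by rw [map_mul, hσσ, mul_comm])
  have hjj : j * j = a • j - b • (1 : E) := by
    rw [Algebra.smul_def, Algebra.smul_def, ha, hb]
    ring
  have hσj : σ j = a • (1 : E) - j := by
    rw [Algebra.smul_def, ha]
    ring
  have hli : LinearIndependent F ![(1 : E), j] := by
    rw [LinearIndependent.pair_iff]
    intro s t hst
    have ht : t = 0 := by
      by_contra ht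
      have h5 : j = algebraMap F E (-(t⁻¹ * s)) := by
        have h6 : t • j = -(s • (1 : E)) := by
          rw [eq_neg_iff_add_eq_zero, add_comm, hst]
        have h7 : j = t⁻¹ • (t • j) := by rw [smul_smul, inv_mul_cancel₀ ht, one_smul]
        rw [h7, h6, smul_neg, smul_smul, ← neg_smul, Algebra.algebraMap_eq_smul_one]
      apply hj
      rw [h5, AlgEquiv.commutes]
    refine ⟨?_, ht⟩
    rw [ht, zero_smul, add_zero] at hst
    rcases smul_eq_zero.mp hst with h | h
    · exact h
    · exact absurd h one_ne_zero
  have hspan : ∀ l : E, ∃ x y : F, l = x • (1 : E) + y • j := by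
    intro l
    have hs := hli.span_eq_top_of_card_eq_finrank (by simp [h2])
    have hl : l ∈ Submodule.span F (Set.range ![(1 : E), j]) := by rw [hs]; trivial
    rw [Matrix.range_cons, Matrix.range_cons, Matrix.range_empty, Set.union_empty,
      Set.singleton_union, Submodule.mem_span_pair] at hl
    obtain ⟨x, y, hxy⟩ := hl
    exact ⟨x, y, hxy.symm⟩
  have ht0 : ∃ x, Algebra.trace F E x ≠ 0 := by
    by_contra hcon
    push Not at hcon
    exact Algebra.trace_ne_zero F E (LinearMap.ext hcon)
  exact ⟨{
    σ := σ
    σσ := hσσ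
    j := j
    hj := hj
    a := a
    b := b
    jj := hjj
    σj := hσj
    span := hspan
    t := Algebra.trace F E
    tσ := fun x => Algebra.trace_eq_of_algEquiv σ x
    t0 := ht0 }⟩

section

variable {F E : Type*} [Field F] [Field E] [Algebra F E] (D : QD F E)
variable {ι : Type*} [Fintype ι] [DecidableEq ι]

/-- the standard form `f₀ (u, v) = t (∑ u_i v_i)` -/
noncomputable def stdForm : (ι → E) →ₗ[F] (ι → E) →ₗ[F] F :=
  LinearMap.mk₂ F (fun u v => D.t (u ⬝ᵥ v))
    (fun u u' v => by rw [add_dotProduct, map_add])
    (fun c u v => by rw [smul_dotProduct, map_smul])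
    (fun u v v' => by rw [dotProduct_add, map_add])
    (fun c u v => by rw [dotProduct_smul, map_smul])

lemma stdForm_apply (u v : ι → E) : stdForm D u v = D.t (u ⬝ᵥ v) := rfl

lemma stdForm_symm (u v : ι → E) : stdForm D u v = stdForm D v u := by
  rw [stdForm_apply, stdForm_apply, dotProduct_comm]

lemma stdForm_smul (c : E) (u v : ι → E) : stdForm D (c • u) v = stdForm D u (c • v) := by
  rw [stdForm_apply, stdForm_apply, smul_dotProduct, dotProduct_smul]

lemma stdForm_nondeg (u : ι → E) (h : ∀ v, stdForm D u v = 0) : u = 0 := by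
  funext i
  by_contra hne
  obtain ⟨x, hx⟩ := D.t0
  have := h (Pi.single i (x / u i))
  rw [stdForm_apply, dotProduct_single, mul_div_cancel₀ _ hne] at this
  exact hx this

lemma stdForm_ext {x y : ι → E} (h : ∀ v, stdForm D x v = stdForm D y v) : x = y := by
  rw [← sub_eq_zero]
  apply stdForm_nondeg D
  intro v
  rw [map_sub, LinearMap.sub_apply, h, sub_self]

lemma exists_rep [FiniteDimensional F E] (φ : (ι → E) →ₗ[F] F) :
    ∃ x, ∀ v, stdForm D x v = φ v := by
  have hinj : Function.Injective (stdForm D (ι := ι)) := by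
    intro x y hxy
    exact stdForm_ext D fun v => by rw [hxy]
  have hsurj : Function.Surjective (stdForm D (ι := ι)) := by
    have : Module.finrank F (ι → E) = Module.finrank F ((ι → E) →ₗ[F] F) :=
      (Subspace.dual_finrank_eq (K := F) (V := (ι → E))).symm
    exact (LinearMap.injective_iff_surjective_of_finrank_eq_finrank this).mp hinj
  obtain ⟨x, hx⟩ := hsurj φ
  exact ⟨x, fun v => by rw [hx]⟩

/-- adjoint of an endomorphism for the standard form -/
lemma exists_adj [FiniteDimensional F E] (A : Module.End F (ι → E)) :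
    ∃ B : Module.End F (ι → E), ∀ u v, stdForm D (B u) v = stdForm D u (A v) := by
  choose θ hθ using fun u => exists_rep D ((stdForm D u).comp A)
  refine ⟨{ toFun := θ, map_add' := fun x y => ?_, map_smul' := fun c x => ?_ }, fun u v => ?_⟩
  · apply stdForm_ext D
    intro v
    rw [map_add, LinearMap.add_apply, hθ, hθ, hθ]
    simp
  · apply stdForm_ext D
    intro v
    rw [RingHom.id_apply, map_smul, LinearMap.smul_apply, hθ, hθ]
    simp
  · exact hθ u v

noncomputable def adj [FiniteDimensional F E] (A : Module.End F (ι → E)) : Module.End F (ι → E) :=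
  (exists_adj D A).choose

lemma adj_spec [FiniteDimensional F E] (A : Module.End F (ι → E)) (u v : ι → E) :
    stdForm D (adj D A u) v = stdForm D u (A v) :=
  (exists_adj D A).choose_spec u v

lemma adj_unique [FiniteDimensional F E] {A B : Module.End F (ι → E)}
    (h : ∀ u v, stdForm D (B u) v = stdForm D u (A v)) : adj D A = B := by
  refine LinearMap.ext fun u => stdForm_ext D fun v => ?_
  rw [adj_spec, h]

lemma adj_mul [FiniteDimensional F E] (A B : Module.End F (ι → E)) :
    adj D (A * B) = adj D B * adj D A := by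
  apply adj_unique
  intro u v
  rw [Module.End.mul_apply, adj_spec, adj_spec, Module.End.mul_apply]

lemma adj_one [FiniteDimensional F E] : adj D (1 : Module.End F (ι → E)) = 1 :=
  adj_unique D fun _ _ => rfl

/-- the adjoint on the unit group -/
noncomputable def adjU [FiniteDimensional F E] (g : LinearMap.GeneralLinearGroup F (ι → E)) :
    LinearMap.GeneralLinearGroup F (ι → E) where
  val := adj D g
  inv := adj D (g⁻¹ : LinearMap.GeneralLinearGroup F (ι → E))
  val_inv := by rw [← adj_mul, ← Units.val_mul, inv_mul_cancel, Units.val_one, adj_one]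
  inv_val := by rw [← adj_mul, ← Units.val_mul, mul_inv_cancel, Units.val_one, adj_one]

lemma adjU_mul [FiniteDimensional F E] (g g' : LinearMap.GeneralLinearGroup F (ι → E)) :
    adjU D (g * g') = adjU D g' * adjU D g := by
  apply Units.ext
  exact adj_mul D _ _

variable (F) in
/-- `GL_n(E)` acting on `E^n` by `F`-linear maps. -/
noncomputable def actF : GL ι E →* LinearMap.GeneralLinearGroup F (ι → E) :=
  Units.map
    { toFun := fun h => (Matrix.mulVecLin h).restrictScalars F
      map_one' := by
        refine LinearMap.ext fun v => ?_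
        simp
      map_mul' := fun x y => by
        refine LinearMap.ext fun v => ?_
        simp }

lemma actF_apply (h : GL ι E) (v : ι → E) :
    ((actF F h : LinearMap.GeneralLinearGroup F (ι → E)) : Module.End F (ι → E)) v =
      (h : Matrix ι ι E).mulVec v := rfl

/-- transpose on the unit group -/
def trU (h : GL ι E) : GL ι E where
  val := (h : Matrix ι ι E).transpose
  inv := ((h⁻¹ : GL ι E) : Matrix ι ι E).transpose
  val_inv := by
    rw [← Matrix.transpose_mul, ← Units.val_mul, inv_mul_cancel, Units.val_one,
      Matrix.transpose_one]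
  inv_val := by
    rw [← Matrix.transpose_mul, ← Units.val_mul, mul_inv_cancel, Units.val_one,
      Matrix.transpose_one]

lemma trU_trU (h : GL ι E) : trU (trU h) = h := by
  apply Units.ext
  exact Matrix.transpose_transpose _

lemma det_trU (h : GL ι E) :
    Matrix.GeneralLinearGroup.det (trU h) = Matrix.GeneralLinearGroup.det h := by
  apply Units.ext
  exact Matrix.det_transpose _

lemma adjU_actF [FiniteDimensional F E] (h : GL ι E) : adjU D (actF F h) = actF F (trU h) := by
  apply Units.ext
  refine adj_unique D fun u v => ?_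
  rw [actF_apply, actF_apply, stdForm_apply, stdForm_apply]
  congr 1
  change (h : Matrix ι ι E).transpose.mulVec u ⬝ᵥ v = _
  rw [Matrix.mulVec_transpose, ← Matrix.dotProduct_mulVec]

/-- multiplication by `j` as an `F`-linear map. -/
def mulj : Module.End F (ι → E) where
  toFun v := D.j • v
  map_add' _ _ := smul_add _ _ _
  map_smul' _ _ := smul_comm _ _ _

/-- The main double coset statement. -/
lemma double_coset [FiniteDimensional F E] (g : LinearMap.GeneralLinearGroup F (ι → E)) :
    ∃ h₁ h₂ : GL ι E, adjU D g = actF F h₁ * g * actF F h₂ ∧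
      Matrix.GeneralLinearGroup.det h₁ * Matrix.GeneralLinearGroup.det h₂ = 1 := by
  classical
  set ginv : Module.End F (ι → E) :=
    ((g⁻¹ : LinearMap.GeneralLinearGroup F (ι → E)) : Module.End F (ι → E)) with hginv
  set g₀ : Module.End F (ι → E) := (g : Module.End F (ι → E)) with hg₀
  have hgg : ∀ v, g₀ (ginv v) = v := fun v => by
    have : g₀ * ginv = 1 := by rw [hg₀, hginv, ← Units.val_mul, mul_inv_cancel, Units.val_one]
    exact LinearMap.congr_fun this v
  have hgg' : ∀ v, ginv (g₀ v) = v := fun v => by
    have : ginv * g₀ = 1 := by rw [hg₀, hginv, ← Units.val_mul, inv_mul_cancel, Units.val_one]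
    exact LinearMap.congr_fun this v
  let J : (ι → E) →ₗ[F] (ι → E) := ginv * mulj D * g₀
  have hJ : ∀ v, J v = ginv (D.j • g₀ v) := fun v => rfl
  have hQ : Quad D J := by
    intro v
    rw [hJ, hJ, hgg, jj_smul, map_sub, ginv.map_smul, ginv.map_smul, hgg']
  obtain ⟨f, fs, fn, fj⟩ := exists_symJ D _ (ι → E) J hQ rfl
  choose M₀ hM₀ using fun v => exists_rep D (f v)
  let M : Module.End F (ι → E) :=
    { toFun := M₀
      map_add' := fun x y => by
        apply stdForm_ext D
        intro v
        rw [map_add, LinearMap.add_apply, hM₀, hM₀, hM₀, map_add, LinearMap.add_apply]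
      map_smul' := fun c x => by
        apply stdForm_ext D
        intro v
        rw [RingHom.id_apply, map_smul, LinearMap.smul_apply, hM₀, hM₀, map_smul,
          LinearMap.smul_apply] }
  have hM : ∀ v u, stdForm D (M v) u = f v u := hM₀
  have hMadj : adj D M = M := by
    apply adj_unique
    intro u v
    rw [hM, stdForm_symm, hM, fs]
  have hMJ : ∀ v, M (J v) = D.j • M v := by
    intro v
    apply stdForm_ext D
    intro u
    rw [hM, fs, ← fj, fs, ← hM, stdForm_smul]
  let N : (ι → E) →ₗ[E] (ι → E) :=
    { toFun := fun v => M (ginv v)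
      map_add' := fun x y => by rw [map_add, map_add]
      map_smul' := fun c v => by
        have hj : ∀ v, M (ginv (D.j • v)) = D.j • M (ginv v) := by
          intro v
          have : ginv (D.j • v) = J (ginv v) := by rw [hJ, hgg]
          rw [this, hMJ]
        obtain ⟨x, y, rfl⟩ := D.span c
        rw [RingHom.id_apply, add_smul, smul_assoc, smul_assoc, one_smul, map_add, map_add,
          map_smul, map_smul, map_smul, map_smul, hj, add_smul, smul_assoc, smul_assoc,
          one_smul] }
  have hN : ∀ v, N v = M (ginv v) := fun v => rfl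
  have hNinj : Function.Injective N := by
    rw [injective_iff_map_eq_zero]
    intro v hv
    have h1 : ginv v = 0 := by
      apply fn
      intro w
      rw [← hM, ← hN, hv, map_zero, LinearMap.zero_apply]
    rw [← hgg v, h1, map_zero]
  have hNbij : Function.Bijective N := ⟨hNinj, LinearMap.injective_iff_surjective.mp hNinj⟩
  set h : GL ι E := Matrix.GeneralLinearGroup.toLin.symm
    (LinearMap.GeneralLinearGroup.ofLinearEquiv (LinearEquiv.ofBijective N hNbij)) with hh
  have hhN : ∀ v, (h : Matrix ι ι E).mulVec v = N v := by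
    intro v
    have h1 : Matrix.GeneralLinearGroup.toLin h =
        LinearMap.GeneralLinearGroup.ofLinearEquiv (LinearEquiv.ofBijective N hNbij) := by
      rw [hh, MulEquiv.apply_symm_apply]
    have h2 := congrArg (fun z : LinearMap.GeneralLinearGroup E (ι → E) =>
      (z : (ι → E) →ₗ[E] (ι → E)) v) h1
    exact h2
  have hMg : M = (actF F h : LinearMap.GeneralLinearGroup F (ι → E)) * g₀ := by
    refine LinearMap.ext fun v => ?_
    rw [Module.End.mul_apply, actF_apply, hhN, hN, hgg']
  have hfin : adjU D g * actF F (trU h) = actF F h * g := by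
    rw [← adjU_actF, ← adjU_mul]
    apply Units.ext
    have : ((adjU D (actF F h * g) : LinearMap.GeneralLinearGroup F (ι → E)) :
        Module.End F (ι → E)) = adj D M := by
      rw [hMg]
      rfl
    rw [this, hMadj, hMg]
    rfl
  refine ⟨h, (trU h)⁻¹, ?_, ?_⟩
  · rw [← hfin, map_inv, mul_inv_cancel_right]
  · rw [map_inv, det_trU, mul_inv_cancel]

end

end Pool.Agent.H4.TwistedPeriod
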