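import Pool.Agent.H4.TwistedPeriod.Gamma

namespace Pool.Agent.H4.TwistedPeriod

variable {F E : Type*} [Field F] [Field E] [Algebra F E] (D : QD F E)

section

variable {V : Type*} [AddCommGroup V] [Module F V] [Module E V] [IsScalarTower F E V]

/-- Fitting for an operator commuting with an indecomposable one. -/
lemma fitting_ind [FiniteDimensional F V] {J : V →ₗ[F] V} (hI : Ind E J) (K : Module.End E V)
    (hK : ∀ v, K (J v) = J (K v)) : Function.Injective K ∨ IsNilpotent K := by
  have : FiniteDimensional E V := FiniteDimensional.right F E V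
  have hcomm : ∀ n v, (K ^ n) (J v) = J ((K ^ n) v) := by
    intro n
    induction n with
    | zero => intro v; rfl
    | succ n ih =>
      intro v
      have e : ∀ y, (K ^ (n + 1)) y = K ((K ^ n) y) := fun y => by rw [pow_succ']; rfl
      rw [e, e, ih, hK]
  obtain ⟨n, hn⟩ := Filter.eventually_atTop.mp
    (LinearMap.eventually_isCompl_ker_pow_range_pow K)
  have hn' := hn (n + 1) (by omega)
  have s1 : ∀ v ∈ LinearMap.ker (K ^ (n + 1)), J v ∈ LinearMap.ker (K ^ (n + 1)) := by
    intro v hv
    rw [LinearMap.mem_ker] at hv ⊢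
    rw [hcomm, hv, map_zero]
  have s2 : ∀ v ∈ LinearMap.range (K ^ (n + 1)), J v ∈ LinearMap.range (K ^ (n + 1)) := by
    rintro v ⟨x, rfl⟩
    exact ⟨J x, hcomm _ _⟩
  rcases hI _ _ hn' s1 s2 with h | h
  · left
    rw [← LinearMap.ker_eq_bot, eq_bot_iff, ← h]
    intro v hv
    rw [LinearMap.mem_ker] at hv ⊢
    rw [pow_succ]
    change (K ^ n) (K v) = 0
    rw [hv, map_zero]
  · right
    exact ⟨n + 1, LinearMap.range_eq_bot.mp h⟩

/-- semilinear from the relation for `j`. -/
lemma semilinear_of {T : V →ₗ[F] V} (h : ∀ v, T (D.j • v) = D.σ D.j • T v) (c : E) (v : V) :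
    T (c • v) = D.σ c • T v := by
  obtain ⟨x, y, rfl⟩ := D.span c
  rw [add_smul, smul_assoc, smul_assoc, one_smul, map_add, map_smul, map_smul, h, map_add,
    map_smul, map_smul, map_one, add_smul, smul_assoc, smul_assoc, one_smul]

lemma nilpotent_or_bijective [FiniteDimensional F V] {T : V →ₗ[F] V}
    (hT : ∀ (c : E) (v : V), T (c • v) = D.σ c • T v) (hI : Ind E T) :
    IsNilpotent T ∨ Function.Bijective T := by
  let z : Module.End E V :=
    { toFun := fun v => T (T v)
      map_add' := fun x y => by simp
      map_smul' := fun c x => by simp [hT, D.σσ] }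
  have hz : ∀ v, z v = T (T v) := fun v => rfl
  rcases fitting_ind hI z (fun v => rfl) with h | ⟨n, hn⟩
  · right
    have hinj : Function.Injective T := by
      intro x y hxy
      apply h
      rw [hz, hz, hxy]
    exact ⟨hinj, LinearMap.injective_iff_surjective.mp hinj⟩
  · left
    refine ⟨2 * n, ?_⟩
    have hzn : ∀ k v, (z ^ k) v = (T ^ (2 * k)) v := by
      intro k
      induction k with
      | zero => intro v; rfl
      | succ k ih =>
        intro v
        have e : (z ^ (k + 1)) v = (z ^ k) (z v) := by rw [pow_succ]; rfl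
        have e2 : T ^ (2 * (k + 1)) = T ^ (2 * k) * T * T := by
          rw [mul_add, mul_one, pow_add, pow_two, mul_assoc]
        rw [e, ih, e2]
        rfl
    ext v
    rw [← hzn, hn]
    rfl

lemma jσj : D.j * D.σ D.j = D.b • (1 : E) := by
  rw [D.σj, mul_sub, D.jj, mul_smul_comm, mul_one]
  abel

lemma jσj_smul (v : V) : D.j • D.σ D.j • v = D.b • v := by
  rw [smul_smul, jσj, smul_assoc, one_smul]

lemma σjj_smul (v : V) : D.σ D.j • D.j • v = D.b • v := by
  rw [smul_smul, mul_comm, jσj, smul_assoc, one_smul]

/-- the indecomposable case -/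
lemma symJ_of_ind [FiniteDimensional F V] [Nontrivial V] {J : V →ₗ[F] V} (hJ : Quad D J)
    (hI : Ind E J) : SymJ D J := by
  classical
  set δ : E := D.j - D.σ D.j with hδ
  have hδ0 : δ ≠ 0 := fun h => D.hj (sub_eq_zero.mp h).symm
  have hδv : ∀ v : V, δ • v = D.j • v - D.σ D.j • v := fun v => by rw [hδ, sub_smul]
  have hσj : ∀ v : V, D.σ D.j • v = D.a • v - D.j • v := fun v => σj_smul D v
  -- the operator k
  let k : V →ₗ[F] V :=
    { toFun := fun v => J v - D.σ D.j • v
      map_add' := fun x y => by rw [map_add, smul_add]; abel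
      map_smul' := fun c x => by rw [map_smul, RingHom.id_apply, smul_sub, smul_comm] }
  have hk : ∀ v, k v = J v - D.σ D.j • v := fun v => rfl
  have hJk : ∀ v, J (k v) = k (D.j • v) := by
    intro v
    rw [hk, hk, map_sub, hJ, σjj_smul, hσj, map_sub, map_smul]
    abel
  have hjk : ∀ v, D.j • k v = k (J v) := by
    intro v
    rw [hk, hk, smul_sub, jσj_smul, hJ, hσj]
    abel
  let K : Module.End E V :=
    { toFun := fun v => k (k v)
      map_add' := fun x y => by simp
      map_smul' := fun c x => by
        obtain ⟨p, q, rfl⟩ := D.span c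
        have e : k (k (D.j • x)) = D.j • k (k x) := by rw [← hJk, ← hjk]
        simp only [RingHom.id_apply]
        rw [add_smul, smul_assoc, smul_assoc, one_smul, map_add, map_add, map_smul, map_smul,
          map_smul, map_smul, e, add_smul, smul_assoc, smul_assoc, one_smul] }
  have hKk : ∀ v, K v = k (k v) := fun v => rfl
  have hK : ∀ v, K (J v) = J (K v) := by
    intro v
    rw [hKk, hKk, ← hjk, ← hJk]
  by_cases hkinj : Function.Injective k
  · -- `k` bijective
    have hkbij : Function.Bijective k := ⟨hkinj, LinearMap.injective_iff_surjective.mp hkinj⟩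
    let ke : V ≃ₗ[F] V := LinearEquiv.ofBijective k hkbij
    obtain ⟨S, hkS, hSk⟩ : ∃ S : V →ₗ[F] V, (∀ v, k (S v) = v) ∧ ∀ v, S (k v) = v :=
      ⟨(ke.symm : V →ₗ[F] V), fun v => ke.apply_symm_apply v, fun v => ke.symm_apply_apply v⟩
    have hSJ : ∀ v, S (J v) = D.j • S v := by
      intro v
      apply hkinj
      rw [hkS, ← hJk, hkS]
    have hJS : ∀ v, J (S v) = v + D.σ D.j • S v := by
      intro v
      have h2 := hkS v
      rw [hk, sub_eq_iff_eq_add] at h2
      exact h2
    have hSj : ∀ v, S (D.j • v) = J (S v) := by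
      intro v
      apply hkinj
      rw [hkS, ← hjk, hkS]
    let T : V →ₗ[F] V :=
      { toFun := fun v => δ • S v - v
        map_add' := fun x y => by rw [map_add, smul_add]; abel
        map_smul' := fun c x => by rw [map_smul, RingHom.id_apply, smul_sub, smul_comm] }
    have hT : ∀ v, T v = δ • S v - v := fun v => rfl
    have h1T : ∀ v, v + T v = δ • S v := fun v => by rw [hT]; abel
    have hSinj : Function.Injective S := fun x y hxy => by rw [← hkS x, hxy, hkS]
    have hSsurj : Function.Surjective S := fun x => ⟨k x, hSk x⟩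
    have hTi : Function.Injective fun v => v + T v := by
      intro x y hxy
      simp only [h1T] at hxy
      exact hSinj (smul_right_injective V hδ0 hxy)
    have hTs : Function.Surjective fun v => v + T v := by
      intro y
      obtain ⟨x, hx⟩ := hSsurj (δ⁻¹ • y)
      refine ⟨x, ?_⟩
      simp only [h1T]
      rw [hx, smul_smul, mul_inv_cancel₀ hδ0, one_smul]
    have hTJ : ∀ v, J v + T (J v) = (fun x : E => x) D.j • (v + T v) := by
      intro v
      rw [h1T, h1T, hSJ, smul_comm]
    have hTsl : ∀ (c : E) (v : V), T (c • v) = D.σ c • T v := by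
      apply semilinear_of
      intro v
      rw [hT, hT, hSj, hJS, smul_sub, smul_add, smul_comm δ, hδv v]
      abel
    have hIT : Ind E T := ind_of_ind (s := fun x : E => x) D hI hTi hTJ
    apply symJ_of_tForm (s := fun x : E => x) D _ hTs hTJ
    rcases nilpotent_or_bijective D hTsl hIT with h | h
    · exact tForm_of_nilpotent D hTsl hIT h rfl (fun _ _ => rfl) (fun _ _ => rfl)
        (fun _ _ => rfl) (fun _ => rfl) (fun _ => rfl) (fun _ => rfl)
    · exact tForm_of_bijective D T hTsl h hIT
  · -- `k` nilpotent
    have hKnil : IsNilpotent K := by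
      rcases fitting_ind hI K hK with h | h
      · exfalso
        apply hkinj
        intro x y hxy
        apply h
        rw [hKk, hKk, hxy]
      · exact h
    obtain ⟨n, hn⟩ := hKnil
    let l : V →ₗ[F] V :=
      { toFun := fun v => J v - D.j • v
        map_add' := fun x y => by rw [map_add, smul_add]; abel
        map_smul' := fun c x => by rw [map_smul, RingHom.id_apply, smul_sub, smul_comm] }
    have hl : ∀ v, l v = J v - D.j • v := fun v => rfl
    have hlk : ∀ v, l v = k v - δ • v := by
      intro v
      rw [hl, hk, hδv]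
      abel
    have hlinj : Function.Injective l := by
      rw [injective_iff_map_eq_zero]
      intro v hv
      have hJv : J v = D.j • v := by rwa [hl, sub_eq_zero] at hv
      have hE : ∀ c : E, J (c • v) = D.j • c • v := by
        intro c
        obtain ⟨x, y, rfl⟩ := D.span c
        rw [add_smul, smul_assoc, smul_assoc, one_smul, map_add, map_smul, map_smul, ← hJv, hJ,
          smul_add, smul_comm D.j x, smul_comm D.j y, hJv, jj_smul]
      have hkE : ∀ c : E, k (c • v) = (δ * c) • v := by
        intro c
        rw [hk, hE, smul_smul, smul_smul, ← sub_smul, hδ, sub_mul]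
      have hKE : ∀ m, (K ^ m) v = (δ ^ 2) ^ m • v := by
        intro m
        induction m with
        | zero => simp
        | succ m ih =>
          have e : (K ^ (m + 1)) v = K ((K ^ m) v) := by rw [pow_succ']; rfl
          rw [e, ih, hKk, hkE, hkE]
          congr 1
          ring
      have h1 := hKE n
      rw [hn, LinearMap.zero_apply] at h1
      by_contra hne
      have := smul_eq_zero.mp h1.symm
      rcases this with h | h
      · exact pow_ne_zero n (pow_ne_zero 2 hδ0) h
      · exact hne h
    have hlbij : Function.Bijective l := ⟨hlinj, LinearMap.injective_iff_surjective.mp hlinj⟩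
    let le : V ≃ₗ[F] V := LinearEquiv.ofBijective l hlbij
    obtain ⟨S, hlS, hSl⟩ : ∃ S : V →ₗ[F] V, (∀ v, l (S v) = v) ∧ ∀ v, S (l v) = v :=
      ⟨(le.symm : V →ₗ[F] V), fun v => le.apply_symm_apply v, fun v => le.symm_apply_apply v⟩
    have hJσ : ∀ v, J (D.σ D.j • v) = D.a • J v - J (D.j • v) := by
      intro v
      rw [hσj, map_sub, map_smul]
    have hJl : ∀ v, J (l v) = l (D.σ D.j • v) := by
      intro v
      rw [hl, hl, map_sub, hJ, jσj_smul, hJσ]
      abel
    have hSJ : ∀ v, S (J v) = D.σ D.j • S v := by
      intro v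
      apply hlinj
      rw [hlS, ← hJl, hlS]
    have hJS : ∀ v, J (S v) = v + D.j • S v := by
      intro v
      have h2 := hlS v
      rw [hl, sub_eq_iff_eq_add] at h2
      exact h2
    have hσl : ∀ v, D.σ D.j • l v = l (J v) := by
      intro v
      rw [hl, hl, smul_sub, σjj_smul, hJ, hσj]
      abel
    have hSσ : ∀ v, S (D.σ D.j • v) = J (S v) := by
      intro v
      apply hlinj
      rw [hlS, ← hσl, hlS]
    have hSj : ∀ v, S (D.j • v) = D.σ D.j • S v - v := by
      intro v
      have e : D.j • v = D.a • v - D.σ D.j • v := by rw [hσj]; abel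
      rw [e, map_sub, map_smul, hSσ, hJS, hσj]
      abel
    let T : V →ₗ[F] V :=
      { toFun := fun v => (-δ) • S v - v
        map_add' := fun x y => by rw [map_add, smul_add]; abel
        map_smul' := fun c x => by rw [map_smul, RingHom.id_apply, smul_sub, smul_comm] }
    have hT : ∀ v, T v = (-δ) • S v - v := fun v => rfl
    have h1T : ∀ v, v + T v = (-δ) • S v := fun v => by rw [hT]; abel
    have hδ0' : -δ ≠ 0 := neg_ne_zero.mpr hδ0
    have hSinj : Function.Injective S := fun x y hxy => by rw [← hlS x, hxy, hlS]
    have hSsurj : Function.Surjective S := fun x => ⟨l x, hSl x⟩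
    have hTi : Function.Injective fun v => v + T v := by
      intro x y hxy
      simp only [h1T] at hxy
      exact hSinj (smul_right_injective V hδ0' hxy)
    have hTs : Function.Surjective fun v => v + T v := by
      intro y
      obtain ⟨x, hx⟩ := hSsurj ((-δ)⁻¹ • y)
      refine ⟨x, ?_⟩
      simp only [h1T]
      rw [hx, smul_smul, mul_inv_cancel₀ hδ0', one_smul]
    have hTJ : ∀ v, J v + T (J v) = D.σ D.j • (v + T v) := by
      intro v
      rw [h1T, h1T, hSJ, smul_comm]
    have hTsl : ∀ (c : E) (v : V), T (c • v) = D.σ c • T v := by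
      apply semilinear_of
      intro v
      rw [hT, hT, hSj, smul_sub, smul_sub, smul_comm (-δ), neg_smul δ v, hδv v]
      abel
    have hIT : Ind E T := ind_of_ind (s := D.σ) D hI hTi hTJ
    apply symJ_of_tForm (s := D.σ) D _ hTs hTJ
    rcases nilpotent_or_bijective D hTsl hIT with h | h
    · exact tForm_of_nilpotent D hTsl hIT h (map_zero _) (fun _ _ => map_add _ _ _)
        (fun _ _ => map_mul _ _ _) (fun _ _ => map_smul _ _ _) D.σσ (fun _ => rfl) D.tσ
    · exfalso
      -- a nonzero vector killed by `k`
      have hex : ∃ v, v ≠ 0 ∧ k v = 0 := by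
        by_contra hcon
        push Not at hcon
        apply hkinj
        rw [injective_iff_map_eq_zero]
        intro v hv
        by_contra hne
        exact hcon v hne hv
      obtain ⟨v, hv0, hkv⟩ := hex
      have h1 : T (l v) = 0 := by
        rw [hT, hSl, hlk, hkv, neg_smul]
        abel
      have h2 : l v = 0 := h.1 (by rw [h1, map_zero])
      exact hv0 (hlinj (by rw [h2, map_zero]))

end

/-- Existence of a symmetric nondegenerate form for which `J` is adjoint to `j`. -/
theorem exists_symJ : ∀ (n : ℕ) (V : Type*) [AddCommGroup V] [Module F V] [Module E V]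
    [IsScalarTower F E V] [FiniteDimensional F V] (J : V →ₗ[F] V), Quad D J →
    Module.finrank F V = n → SymJ D J := by
  intro n
  induction n using Nat.strong_induction_on with
  | _ n ih =>
    intro V _ _ _ _ _ J hJ hn
    by_cases hI : Ind E J
    · rcases subsingleton_or_nontrivial V with h | h
      · refine ⟨0, fun u v => rfl, fun u _ => Subsingleton.elim _ _, fun u v => rfl⟩
      · exact symJ_of_ind D hJ hI
    · unfold Ind at hI
      push Not at hI
      obtain ⟨U₁, U₂, hc, s1, s2, n1, n2⟩ := hI
      have hlt : ∀ U W : Submodule E V, IsCompl U W → W ≠ ⊥ →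
          Module.finrank F U < Module.finrank F V := by
        intro U W hUW hW
        have hne : U.restrictScalars F ≠ ⊤ := by
          intro h
          have hU : U = ⊤ := by
            rw [eq_top_iff]
            intro v _
            have : v ∈ U.restrictScalars F := by rw [h]; trivial
            exact this
          apply hW
          rw [eq_bot_iff, ← hUW.inf_eq_bot, hU, top_inf_eq]
        exact Submodule.finrank_lt hne
      have hstep : ∀ U : Submodule E V, Module.finrank F U < Module.finrank F V →
          ∀ s : (∀ v ∈ U, J v ∈ U), ∃ J₁ : U →ₗ[F] U, (∀ v : U, (J₁ v : V) = J v) ∧ SymJ D J₁ := by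
        intro U hU s
        let J₁ : U →ₗ[F] U :=
          { toFun := fun v => ⟨J v, s v v.2⟩
            map_add' := fun x y => by
              apply Subtype.ext
              simp
            map_smul' := fun c x => by
              apply Subtype.ext
              simp }
        have hfin : FiniteDimensional F U :=
          FiniteDimensional.of_injective ((U.subtype).restrictScalars F) U.subtype_injective
        refine ⟨J₁, fun v => rfl, ih _ (hn ▸ hU) U J₁ ?_ rfl⟩
        intro v
        apply Subtype.ext
        exact hJ v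
      obtain ⟨J₁, hJ₁, S₁⟩ := hstep U₁ (hlt U₁ U₂ hc n2) s1
      obtain ⟨J₂, hJ₂, S₂⟩ := hstep U₂ (hlt U₂ U₁ hc.symm n1) s2
      exact symJ_of_isCompl D hc s1 s2 hJ₁ S₁ hJ₂ S₂

end Pool.Agent.H4.TwistedPeriod
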