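import Pool.Agent.H4.TwistedPeriod.Setup

namespace Pool.Agent.H4.TwistedPeriod

variable {F E : Type*} [Field F] [Field E] [Algebra F E] (D : QD F E)
variable {V : Type*} [AddCommGroup V] [Module F V] [Module E V] [IsScalarTower F E V]

/-- forms adapted to a semilinear operator `T` -/
def TForm (s : E → E) (T : V →ₗ[F] V) : Prop :=
  ∃ f : V →ₗ[F] V →ₗ[F] F, (∀ u v, f u v = f v u) ∧ (∀ u, (∀ v, f u v = 0) → u = 0) ∧
    (∀ (c : E) (u v : V), f (c • u) v = f u (s c • v)) ∧ ∀ u v, f (T u) v = f u (T v)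

/-- `J` admits no nontrivial decomposition -/
def Ind (E : Type*) [Field E] {V : Type*} [AddCommGroup V] [Module F V] [Module E V]
    (J : V →ₗ[F] V) : Prop :=
  ∀ U₁ U₂ : Submodule E V, IsCompl U₁ U₂ → (∀ v ∈ U₁, J v ∈ U₁) → (∀ v ∈ U₂, J v ∈ U₂) →
    U₁ = ⊥ ∨ U₂ = ⊥

lemma symJ_of_tForm {s : E → E} {T J : V →ₗ[F] V} (h : TForm s T)
    (hb : Function.Surjective fun v => v + T v)
    (hJ : ∀ v, J v + T (J v) = s D.j • (v + T v)) : SymJ D J := by
  obtain ⟨f, fs, fn, fc, fT⟩ := h
  refine ⟨f.compl₂ (LinearMap.id + T), ?_, ?_, ?_⟩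
  · intro u v
    simp only [LinearMap.compl₂_apply, LinearMap.add_apply, LinearMap.id_apply, map_add]
    rw [fs u v, ← fT u v, fs (T u) v]
  · intro u hu
    apply fn
    intro w
    obtain ⟨v, rfl⟩ := hb w
    exact hu v
  · intro u v
    simp only [LinearMap.compl₂_apply, LinearMap.add_apply, LinearMap.id_apply]
    rw [fc, hJ]

lemma ind_of_ind [FiniteDimensional F V] {s : E → E} {T J : V →ₗ[F] V} (h : Ind E J)
    (hi : Function.Injective fun v => v + T v)
    (hJ : ∀ v, J v + T (J v) = s D.j • (v + T v)) : Ind E T := by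
  have key : ∀ U : Submodule E V, (∀ v ∈ U, T v ∈ U) → ∀ v ∈ U, J v ∈ U := by
    intro U hU v hv
    set W : Submodule F V := U.restrictScalars F with hW
    let φ : W →ₗ[F] W :=
      { toFun := fun w => ⟨(w : V) + T w, U.add_mem w.2 (hU w w.2)⟩
        map_add' := fun x y => by
          apply Subtype.ext
          simp only [Submodule.coe_add, map_add]
          abel
        map_smul' := fun c x => by
          apply Subtype.ext
          simp only [Submodule.coe_smul, map_smul, smul_add, RingHom.id_apply] }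
    have hφi : Function.Injective φ := by
      intro x y hxy
      apply Subtype.ext
      apply hi
      exact congrArg Subtype.val hxy
    have hφs : Function.Surjective φ := LinearMap.surjective_of_injective hφi
    have hmem : s D.j • (v + T v) ∈ U := U.smul_mem _ (U.add_mem hv (hU v hv))
    obtain ⟨w, hw⟩ := hφs ⟨_, hmem⟩
    have hw' : (w : V) + T w = s D.j • (v + T v) := congrArg Subtype.val hw
    rw [← hJ v] at hw'
    have := hi hw'
    rw [← this]
    exact w.2
  intro U₁ U₂ hc h₁ h₂
  exact h U₁ U₂ hc (key U₁ h₁) (key U₂ h₂)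

section Strings

variable (T : V →ₗ[F] V)

/-- the coordinate functionals `σ ^ i (l (T ^ i x))` -/
noncomputable def Lm (hT : ∀ (c : E) (v : V), T (c • v) = D.σ c • T v) (l : V →ₗ[E] E) :
    ℕ → (V →ₗ[E] E)
  | 0 => l
  | (i + 1) =>
    { toFun := fun x => D.σ (Lm hT l i (T x))
      map_add' := fun x y => by simp
      map_smul' := fun c x => by simp [hT, D.σσ] }

variable {T} (hT : ∀ (c : E) (v : V), T (c • v) = D.σ c • T v)

lemma Lm_succ (l : V →ₗ[E] E) (i : ℕ) (x : V) :
    Lm D T hT l (i + 1) x = D.σ (Lm D T hT l i (T x)) := rfl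

lemma Lm_T (l : V →ₗ[E] E) (i : ℕ) (x : V) :
    Lm D T hT l i (T x) = D.σ (Lm D T hT l (i + 1) x) := by
  rw [Lm_succ, D.σσ]

lemma Lm_eq (l : V →ₗ[E] E) (i : ℕ) : ∀ x : V,
    Lm D T hT l i x = (D.σ : E → E)^[i] (l ((T ^ i) x)) := by
  induction i with
  | zero => intro x; simp [Lm]
  | succ i ih =>
    intro x
    rw [Lm_succ, ih, Function.iterate_succ_apply', pow_succ]
    rfl

lemma iter_zero (i : ℕ) : (D.σ : E → E)^[i] 0 = 0 :=
  Function.iterate_fixed (map_zero D.σ) i

lemma iter_one (i : ℕ) : (D.σ : E → E)^[i] 1 = 1 :=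
  Function.iterate_fixed (map_one D.σ) i

include D hT in
/-- Main lemma on strings: an indecomposable nilpotent semilinear operator is a single string and
hence has an adapted form. -/
lemma tForm_of_nilpotent [FiniteDimensional F V] [Nontrivial V]
    (hI : Ind E T) (hnil : IsNilpotent T) {s : E → E} (s0 : s 0 = 0)
    (sadd : ∀ x y, s (x + y) = s x + s y) (smul : ∀ x y, s (x * y) = s x * s y)
    (ssmul : ∀ (c : F) x, s (c • x) = c • s x)
    (ss : ∀ x, s (s x) = x) (sσ : ∀ x, s (D.σ x) = D.σ (s x)) (ts : ∀ x, D.t (s x) = D.t x) :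
    TForm s T := by
  classical
  -- nilpotency index
  set m := nilpotencyClass T with hm
  have hm0 : T ^ m = 0 := pow_nilpotencyClass hnil
  have hmpos : 0 < m := pos_nilpotencyClass_iff.mpr hnil
  have hm1 : T ^ (m - 1) ≠ 0 := pow_pred_nilpotencyClass hnil
  obtain ⟨v, hv⟩ : ∃ v, (T ^ (m - 1)) v ≠ 0 := by
    by_contra hcon
    push Not at hcon
    exact hm1 (LinearMap.ext hcon)
  obtain ⟨l, hl⟩ : ∃ l : V →ₗ[E] E, l ((T ^ (m - 1)) v) = 1 := by
    obtain ⟨l, hl⟩ : ∃ l : Module.Dual E V, l ((T ^ (m - 1)) v) ≠ 0 := by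
      by_contra hcon
      push Not at hcon
      exact hv ((Module.forall_dual_apply_eq_zero_iff E _).mp hcon)
    refine ⟨(l ((T ^ (m - 1)) v))⁻¹ • l, ?_⟩
    simp [hl]
  set L := Lm D T hT l with hL
  have hLm : ∀ x, L m x = 0 := by
    intro x
    rw [hL, Lm_eq, hm0]
    simp [iter_zero]
  have hLT : ∀ i x, L i (T x) = D.σ (L (i + 1) x) := fun i x => Lm_T D hT l i x
  -- values on the string
  have hval0 : ∀ i k, m ≤ i + k → L i ((T ^ k) v) = 0 := by
    intro i k hik
    rw [hL, Lm_eq]
    have : (T ^ i) ((T ^ k) v) = (T ^ (i + k)) v := by rw [pow_add]; rfl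
    rw [this]
    have h2 : T ^ (i + k) = 0 := by
      rw [← Nat.add_sub_of_le hik, pow_add, hm0, zero_mul]
    rw [h2]
    simp [iter_zero]
  have hval1 : ∀ i k, i + k = m - 1 → L i ((T ^ k) v) = 1 := by
    intro i k hik
    rw [hL, Lm_eq]
    have : (T ^ i) ((T ^ k) v) = (T ^ (i + k)) v := by rw [pow_add]; rfl
    rw [this, hik, hl, iter_one]
  -- the coordinate map and the string map
  let Λ : V →ₗ[E] (Fin m → E) := LinearMap.pi fun i => L i
  let M : (Fin m → E) →ₗ[E] V :=
    ∑ k : Fin m, (LinearMap.proj k : (Fin m → E) →ₗ[E] E).smulRight ((T ^ (k : ℕ)) v)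
  have hM : ∀ c, M c = ∑ k : Fin m, c k • (T ^ (k : ℕ)) v := by
    intro c
    simp [M]
  have hΛM : Function.Injective (Λ ∘ₗ M) := by
    rw [injective_iff_map_eq_zero]
    intro c hc
    by_contra hne
    have hex : ∃ k, ∃ h : k < m, c ⟨k, h⟩ ≠ 0 := by
      by_contra hcon
      push Not at hcon
      apply hne
      funext k
      exact hcon k k.2
    obtain ⟨hk₀, hck₀⟩ := Nat.find_spec hex
    set k₀ := Nat.find hex with hk
    have hmin : ∀ k (h : k < m), k < k₀ → c ⟨k, h⟩ = 0 := by
      intro k h hkk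
      have := Nat.find_min hex hkk
      push Not at this
      exact this h
    have h1 : (Λ ∘ₗ M) c ⟨m - 1 - k₀, by omega⟩ = c ⟨k₀, hk₀⟩ := by
      have h2 : (Λ ∘ₗ M) c ⟨m - 1 - k₀, by omega⟩ = L (m - 1 - k₀) (M c) := rfl
      rw [h2, hM, map_sum, Finset.sum_eq_single (⟨k₀, hk₀⟩ : Fin m)]
      · rw [map_smul, hval1 _ _ (by simp only; omega), smul_eq_mul, mul_one]
      · intro k _ hkne
        rw [map_smul]
        rcases lt_trichotomy (k : ℕ) k₀ with h | h | h
        · rw [hmin k k.2 h, zero_smul]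
        · exact absurd (Fin.ext h) hkne
        · rw [hval0 _ _ (by omega), smul_zero]
      · intro h
        exact absurd (Finset.mem_univ _) h
    rw [hc] at h1
    exact hck₀ h1.symm
  have hΛM' : Function.Surjective (Λ ∘ₗ M) := LinearMap.surjective_of_injective hΛM
  have hcompl : IsCompl (LinearMap.range M) (LinearMap.ker Λ) := by
    constructor
    · rw [Submodule.disjoint_def]
      rintro x ⟨c, rfl⟩ hx
      have : c = 0 := hΛM (by rw [map_zero]; exact hx)
      rw [this, map_zero]
    · rw [codisjoint_iff, eq_top_iff]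
      intro x _
      obtain ⟨c, hc⟩ := hΛM' (Λ x)
      have : x = M c + (x - M c) := by abel
      rw [this]
      refine Submodule.add_mem_sup ⟨c, rfl⟩ ?_
      rw [LinearMap.mem_ker, map_sub, ← hc]
      exact sub_self _
  have hstab1 : ∀ x ∈ LinearMap.range M, T x ∈ LinearMap.range M := by
    rintro x ⟨c, rfl⟩
    rw [hM, map_sum]
    refine Submodule.sum_mem _ fun k _ => ?_
    rw [hT]
    refine Submodule.smul_mem _ _ ?_
    have h1 : T ((T ^ (k : ℕ)) v) = (T ^ ((k : ℕ) + 1)) v := by rw [pow_succ']; rfl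
    rw [h1]
    by_cases hk : (k : ℕ) + 1 < m
    · refine ⟨Pi.single ⟨(k : ℕ) + 1, hk⟩ 1, ?_⟩
      rw [hM, Finset.sum_eq_single (⟨(k : ℕ) + 1, hk⟩ : Fin m)]
      · simp
      · intro b _ hb
        rw [Pi.single_eq_of_ne hb, zero_smul]
      · intro h
        exact absurd (Finset.mem_univ _) h
    · have h2 : (k : ℕ) + 1 = m := by have := k.2; omega
      rw [h2, hm0]
      simp
  have hstab2 : ∀ x ∈ LinearMap.ker Λ, T x ∈ LinearMap.ker Λ := by
    intro x hx
    rw [LinearMap.mem_ker] at hx ⊢
    funext i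
    have h1 : Λ (T x) i = D.σ (L (i + 1) x) := hLT i x
    rw [h1]
    by_cases hi : (i : ℕ) + 1 < m
    · have h2 : L (i + 1) x = Λ x ⟨(i : ℕ) + 1, hi⟩ := rfl
      rw [h2, hx]
      simp
    · have h2 : (i : ℕ) + 1 = m := by have := i.2; omega
      rw [h2, hLm]
      simp
  have hker : LinearMap.ker Λ = ⊥ := by
    rcases hI _ _ hcompl hstab1 hstab2 with h | h
    · exfalso
      have h1 : v ∈ LinearMap.range M := by
        refine ⟨Pi.single ⟨0, hmpos⟩ 1, ?_⟩
        rw [hM, Finset.sum_eq_single (⟨0, hmpos⟩ : Fin m)]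
        · simp
        · intro b _ hb
          rw [Pi.single_eq_of_ne hb, zero_smul]
        · intro h
          exact absurd (Finset.mem_univ _) h
      rw [h, Submodule.mem_bot] at h1
      apply hv
      rw [h1, map_zero]
    · exact h
  have hΛinj : Function.Injective Λ := LinearMap.ker_eq_bot.mp hker
  have hΛsurj : Function.Surjective Λ := fun y => by
    obtain ⟨c, hc⟩ := hΛM' y
    exact ⟨M c, hc⟩
  -- the form
  let f : V →ₗ[F] V →ₗ[F] F := LinearMap.mk₂ F
    (fun x y => D.t (∑ i ∈ Finset.range m, L i x * s (L (m - 1 - i) y)))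
    (fun x x' y => by
      simp only [map_add, add_mul, Finset.sum_add_distrib])
    (fun c x y => by
      have : ∀ i, L i (c • x) = c • L i x := fun i => by
        have h1 : c • x = (algebraMap F E c) • x := by rw [algebraMap_smul]
        rw [h1, map_smul, algebraMap_smul]
      simp only [this, smul_mul_assoc, ← Finset.smul_sum, map_smul])
    (fun x y y' => by
      simp only [map_add, sadd, mul_add, Finset.sum_add_distrib])
    (fun c x y => by
      have : ∀ i, L i (c • y) = c • L i y := fun i => by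
        have h1 : c • y = (algebraMap F E c) • y := by rw [algebraMap_smul]
        rw [h1, map_smul, algebraMap_smul]
      simp only [this, ssmul, mul_smul_comm, ← Finset.smul_sum, map_smul])
  have hf : ∀ x y, f x y = D.t (∑ i ∈ Finset.range m, L i x * s (L (m - 1 - i) y)) :=
    fun x y => rfl
  refine ⟨f, ?_, ?_, ?_, ?_⟩
  · intro x y
    rw [hf, hf, ← ts, ← Finset.sum_range_reflect]
    congr 1
    have hsum : ∀ g : ℕ → E, s (∑ i ∈ Finset.range m, g i) = ∑ i ∈ Finset.range m, s (g i) := by
      intro g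
      have : ∀ S : Finset ℕ, s (∑ i ∈ S, g i) = ∑ i ∈ S, s (g i) := by
        intro S
        induction S using Finset.induction_on with
        | empty => simpa using s0
        | insert a S ha ih => rw [Finset.sum_insert ha, sadd, ih, Finset.sum_insert ha]
      exact this _
    rw [hsum]
    refine Finset.sum_congr rfl fun i hi => ?_
    have hi' := Finset.mem_range.mp hi
    rw [smul, ss]
    have : m - 1 - (m - 1 - i) = i := by omega
    rw [this, mul_comm]
  · intro x hx
    apply hΛinj
    rw [map_zero]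
    funext i
    by_contra hne
    have hne' : L i x ≠ 0 := hne
    obtain ⟨e, he⟩ := D.t0
    -- choose y with a single coordinate
    obtain ⟨y, hy⟩ := hΛsurj (Pi.single (⟨m - 1 - i, by omega⟩ : Fin m) (s (e / L i x)))
    have h1 := hx y
    rw [hf, Finset.sum_eq_single (i : ℕ)] at h1
    · have h2 : L (m - 1 - i) y = s (e / L i x) := by
        have : L (m - 1 - i) y = Λ y ⟨m - 1 - i, by omega⟩ := rfl
        rw [this, hy]
        simp
      rw [h2, ss, mul_div_cancel₀ _ hne'] at h1
      exact he h1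
    · intro b hb hbi
      have hb' := Finset.mem_range.mp hb
      have h2 : L (m - 1 - b) y = 0 := by
        have : L (m - 1 - b) y = Λ y ⟨m - 1 - b, by omega⟩ := rfl
        rw [this, hy, Pi.single_eq_of_ne]
        intro h
        have := congrArg Fin.val h
        simp only at this
        have := i.2
        omega
      rw [h2, s0, mul_zero]
    · intro h
      exact absurd (Finset.mem_range.mpr i.2) h
  · intro c x y
    rw [hf, hf]
    congr 1
    refine Finset.sum_congr rfl fun i _ => ?_
    rw [map_smul, map_smul, smul_eq_mul, smul_eq_mul, smul, ss]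
    ring
  · intro x y
    rw [hf, hf, ← D.tσ]
    congr 1
    rw [map_sum]
    -- both sides equal the sum over `i + k = m`, `1 ≤ i`
    obtain ⟨p, hp⟩ : ∃ p, m = p + 1 := ⟨m - 1, by omega⟩
    have hL' : ∀ x, L (p + 1) x = 0 := by rw [← hp]; exact hLm
    rw [hp]
    rw [Finset.sum_range_succ, Finset.sum_range_succ']
    have e1 : D.σ (L p (T x) * s (L (p + 1 - 1 - p) y)) = 0 := by
      rw [hLT, hL', map_zero, zero_mul, map_zero]
    have e2 : L 0 x * s (L (p + 1 - 1 - 0) (T y)) = 0 := by
      have : p + 1 - 1 - 0 = p := by omega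
      rw [this, hLT, hL', map_zero, s0, mul_zero]
    rw [e1, e2, add_zero, add_zero]
    refine Finset.sum_congr rfl fun i hi => ?_
    have hi' := Finset.mem_range.mp hi
    rw [map_mul, hLT, D.σσ, hLT]
    have h3 : p + 1 - 1 - (i + 1) + 1 = p + 1 - 1 - i := by omega
    rw [h3, sσ]

end Strings

end Pool.Agent.H4.TwistedPeriod
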