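import Pool.Agent.H4.TwistedPeriod.TZ
import Pool.Agent.H4.TwistedPeriod.Strings

namespace Pool.Agent.H4.TwistedPeriod

variable {F E : Type*} [Field F] [Field E] [Algebra F E] (D : QD F E)
variable {V : Type*} [AddCommGroup V] [Module F V] [Module E V] [IsScalarTower F E V]

omit [Module F V] [IsScalarTower F E V] in
/-- Fitting decomposition used for a pair of eigenvalues. -/
lemma fitting_pair [FiniteDimensional E V] (θ : V →ₗ[E] V) {μ : E} (hμ : μ ≠ -1)
    {u w : V} (hu : u ≠ 0) (hw : w ≠ 0) (h1 : θ u = -u) (h2 : θ w = μ • w)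
    (T : V → V) (hT : ∀ x, θ (T (θ x)) = T x) (hadd : ∀ x y, T (x + y) = T x + T y) :
    ∃ U₁ U₂ : Submodule E V, IsCompl U₁ U₂ ∧ (∀ v ∈ U₁, T v ∈ U₁) ∧ (∀ v ∈ U₂, T v ∈ U₂) ∧
      U₁ ≠ ⊥ ∧ U₂ ≠ ⊥ := by
  set φ : Module.End E V := θ + 1 with hφ
  have hφx : ∀ x, φ x = θ x + x := fun x => rfl
  have hcomm : ∀ n x, θ ((φ ^ n) x) = (φ ^ n) (θ x) := by
    intro n x
    have hc : Commute (θ : Module.End E V) (φ ^ n) := by
      apply Commute.pow_right
      rw [hφ]
      exact (Commute.refl _).add_right (Commute.one_right _)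
    exact LinearMap.congr_fun hc.eq x
  have ha : ∀ x, T (φ x) = φ (T (θ x)) := by
    intro x
    rw [hφx, hφx, hT, hadd, add_comm]
  have hb : ∀ x, φ (T x) = θ (T (φ x)) := by
    intro x
    rw [hφx, hφx, hadd, map_add, hT, add_comm]
  have ha' : ∀ n x, T ((φ ^ n) x) = (φ ^ n) (T ((θ ^ n) x)) := by
    intro n
    induction n with
    | zero => intro x; rfl
    | succ n ih =>
      intro x
      have e1 : (φ ^ (n + 1)) x = φ ((φ ^ n) x) := by rw [pow_succ']; rfl
      have e2 : ∀ y, (φ ^ (n + 1)) y = φ ((φ ^ n) y) := fun y => by rw [pow_succ']; rfl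
      have e3 : (θ ^ (n + 1)) x = (θ ^ n) (θ x) := by rw [pow_succ]; rfl
      rw [e1, ha, hcomm, ih, e2, e3]
  have hb' : ∀ n x, (φ ^ n) (T x) = (θ ^ n) (T ((φ ^ n) x)) := by
    intro n
    induction n with
    | zero => intro x; rfl
    | succ n ih =>
      intro x
      have e1 : (φ ^ (n + 1)) (T x) = φ ((φ ^ n) (T x)) := by rw [pow_succ']; rfl
      have e2 : (φ ^ (n + 1)) x = φ ((φ ^ n) x) := by rw [pow_succ']; rfl
      have e3 : ∀ y, (θ ^ (n + 1)) y = (θ ^ n) (θ y) := fun y => by rw [pow_succ]; rfl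
      have e4 : ∀ y, φ ((θ ^ n) y) = (θ ^ n) (φ y) := by
        intro y
        have hc : Commute φ (θ ^ n : Module.End E V) := by
          apply Commute.pow_right
          rw [hφ]
          exact (Commute.refl _).add_left (Commute.one_left _)
        exact LinearMap.congr_fun hc.eq y
      rw [e1, ih, e4, hb, e2, e3]
  obtain ⟨n, hn⟩ := Filter.eventually_atTop.mp
    (LinearMap.eventually_isCompl_ker_pow_range_pow φ)
  have hn' := hn (n + 1) (by omega)
  refine ⟨LinearMap.ker (φ ^ (n + 1)), LinearMap.range (φ ^ (n + 1)), hn', ?_, ?_, ?_, ?_⟩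
  · intro v hv
    rw [LinearMap.mem_ker] at hv ⊢
    have hT0 : T 0 = 0 := by
      have := hadd 0 0
      simpa using this
    rw [hb', hv, hT0, map_zero]
  · rintro v ⟨x, rfl⟩
    rw [ha']
    exact ⟨_, rfl⟩
  · intro h
    apply hu
    have : u ∈ LinearMap.ker (φ ^ (n + 1)) := by
      rw [LinearMap.mem_ker, pow_succ]
      change (φ ^ n) (φ u) = 0
      rw [hφx, h1, neg_add_cancel, map_zero]
    rwa [h, Submodule.mem_bot] at this
  · intro h
    apply hw
    have hν : μ + 1 ≠ 0 := fun h => hμ (eq_neg_of_add_eq_zero_left h)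
    have hφw : ∀ k, (φ ^ k) w = (μ + 1) ^ k • w := by
      intro k
      induction k with
      | zero => simp
      | succ k ih =>
        rw [pow_succ']
        change φ ((φ ^ k) w) = _
        rw [ih, map_smul, hφx, h2, pow_succ', mul_comm, mul_smul, add_smul, one_smul]
    have : w ∈ LinearMap.range (φ ^ (n + 1)) := by
      refine ⟨((μ + 1) ^ (n + 1))⁻¹ • w, ?_⟩
      rw [map_smul, hφw, smul_smul, inv_mul_cancel₀ (pow_ne_zero _ hν), one_smul]
    rwa [h, Submodule.mem_bot] at this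

/-- The bijective case. -/
lemma tForm_of_bijective [FiniteDimensional F V] (T : V →ₗ[F] V)
    (hT : ∀ (c : E) (v : V), T (c • v) = D.σ c • T v) (hb : Function.Bijective T)
    (hI : Ind E T) : TForm (fun x : E => x) T := by
  classical
  have : FiniteDimensional E V := FiniteDimensional.right F E V
  -- inverse
  let Te : V ≃ₗ[F] V := LinearEquiv.ofBijective T hb
  set S : V →ₗ[F] V := (Te.symm : V →ₗ[F] V) with hSdef
  have hTS : ∀ v, T (S v) = v := fun v => Te.apply_symm_apply v
  have hST : ∀ v, S (T v) = v := fun v => Te.symm_apply_apply v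
  have hS : ∀ (c : E) (v : V), S (c • v) = D.σ c • S v := by
    intro c v
    apply hb.1
    rw [hTS, hT, hTS, D.σσ]
  let z : V →ₗ[E] V :=
    { toFun := fun v => T (T v)
      map_add' := fun x y => by simp
      map_smul' := fun c x => by simp [hT, D.σσ] }
  have hz : ∀ v, z v = T (T v) := fun v => rfl
  obtain ⟨f₁, f₁s, f₁n, f₁c, f₁z⟩ := exists_f₁ D z
  have hn : f₁.Nondegenerate := by
    refine ⟨fun u hu => f₁n u hu, fun u hu => f₁n u (fun v => ?_)⟩
    rw [f₁s]
    exact hu v
  set f₂ : V →ₗ[F] V →ₗ[F] F := f₁.compl₁₂ T S with hf₂def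
  have hf₂ : ∀ u v, f₂ u v = f₁ (T u) (S v) := fun u v => rfl
  have f₂s : ∀ u v, f₂ u v = f₂ v u := by
    intro u v
    have e1 : T u = z (S u) := by rw [hz, hTS]
    rw [hf₂, hf₂, e1, f₁z, hz, hTS, f₁s]
  have f₂c : ∀ (c : E) u v, f₂ (c • u) v = f₂ u (c • v) := by
    intro c u v
    rw [hf₂, hf₂, hT, f₁c, hS]
  -- θ
  obtain ⟨θ₀, hθ₀⟩ : ∃ θ₀ : V → V, ∀ u v, f₂ u v = f₁ (θ₀ u) v := by
    have hinj : Function.Injective f₁ := by
      rw [injective_iff_map_eq_zero]
      intro u hu
      apply f₁n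
      intro v
      rw [hu, LinearMap.zero_apply]
    have hsurj : Function.Surjective f₁ := by
      have : Module.finrank F V = Module.finrank F (V →ₗ[F] F) :=
        (Subspace.dual_finrank_eq (K := F) (V := V)).symm
      exact (LinearMap.injective_iff_surjective_of_finrank_eq_finrank this).mp hinj
    choose θ₀ hθ₀ using fun u => hsurj (f₂ u)
    exact ⟨θ₀, fun u v => by rw [hθ₀]⟩
  have hext : ∀ x y, (∀ v, f₁ x v = f₁ y v) → x = y := by
    intro x y hxy
    rw [← sub_eq_zero]
    apply f₁n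
    intro v
    rw [map_sub, LinearMap.sub_apply, hxy, sub_self]
  let θ : V →ₗ[E] V :=
    { toFun := θ₀
      map_add' := fun x y => by
        apply hext
        intro v
        rw [← hθ₀, map_add, map_add, LinearMap.add_apply, LinearMap.add_apply, hθ₀, hθ₀]
      map_smul' := fun c x => by
        apply hext
        intro v
        rw [← hθ₀, RingHom.id_apply, f₂c, hθ₀, f₁c] }
  have hθ : ∀ u v, f₂ u v = f₁ (θ u) v := hθ₀
  have hθT : ∀ x, θ (T (θ x)) = T x := by
    intro x
    apply hext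
    intro v
    rw [← hθ, hf₂]
    have : T (T (θ x)) = z (θ x) := rfl
    rw [this, f₁z, ← hθ, hz, hTS, hf₂, hST]
  -- the forms f_c
  let f : E → V →ₗ[F] V →ₗ[F] F := fun c =>
    LinearMap.mk₂ F (fun u v => f₁ (c • u) v + f₂ (D.σ c • u) v)
      (fun u u' v => by simp only [smul_add, map_add, LinearMap.add_apply]; ring)
      (fun r u v => by
        have e : ∀ d : E, d • r • u = r • d • u := fun d => smul_comm _ _ _
        simp only [e, map_smul, LinearMap.smul_apply, smul_add])
      (fun u v v' => by simp only [map_add]; ring)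
      (fun r u v => by simp only [map_smul, smul_add])
  have hf : ∀ c u v, f c u v = f₁ (c • u) v + f₂ (D.σ c • u) v := fun c u v => rfl
  have hfθ : ∀ c u v, f c u v = f₁ (c • u + D.σ c • θ u) v := by
    intro c u v
    rw [hf, hθ, map_add, LinearMap.add_apply, θ.map_smul]
  have key : (∀ c : E, (∀ u, c • u + D.σ c • θ u = 0 → u = 0) → TForm (fun x : E => x) T) := by
    intro c hc
    refine ⟨f c, ?_, ?_, ?_, ?_⟩
    · intro u v
      rw [hf, hf, f₁c, f₁s, f₂c, f₂s]
    · intro u hu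
      apply hc
      apply f₁n
      intro v
      rw [← hfθ]
      exact hu v
    · intro e u v
      rw [hf, hf, smul_comm c e, f₁c e, smul_comm (D.σ c) e, f₂c e]
    · intro u v
      have e1 : c • T u = T (D.σ c • u) := by rw [hT, D.σσ]
      have e2 : f₂ (D.σ c • T u) v = f₁ (c • u) (T v) := by
        rw [hf₂]
        have : T (D.σ c • T u) = z (c • u) := by rw [hz, hT c]
        rw [this, f₁z, hz, hTS]
      have e3 : f₁ (T (D.σ c • u)) v = f₂ (D.σ c • u) (T v) := by
        rw [hf₂, hST]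
      rw [hf, hf, e1, e2, e3, add_comm]
  by_cases h1 : ∀ u, (1 : E) • u + D.σ 1 • θ u = 0 → u = 0
  · exact key 1 h1
  by_cases h2 : ∀ u, D.j • u + D.σ D.j • θ u = 0 → u = 0
  · exact key D.j h2
  exfalso
  push Not at h1 h2
  obtain ⟨u, hu, hu0⟩ := h1
  obtain ⟨w, hw, hw0⟩ := h2
  have hσj0 : D.σ D.j ≠ 0 := by
    intro h
    have h' : D.j = 0 := by rw [← D.σσ D.j, h, map_zero]
    exact D.hj (by rw [h, h'])
  have hθu : θ u = -u := by
    rw [map_one, one_smul, one_smul] at hu
    exact (neg_eq_of_add_eq_zero_right hu).symm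
  have hθw : θ w = (-(D.j / D.σ D.j)) • w := by
    have h3 : D.σ D.j • θ w = -(D.j • w) := (neg_eq_of_add_eq_zero_right hw).symm
    have h4 : θ w = (D.σ D.j)⁻¹ • (D.σ D.j • θ w) := by
      rw [smul_smul, inv_mul_cancel₀ hσj0, one_smul]
    rw [h4, h3, smul_neg, smul_smul, neg_smul, div_eq_inv_mul]
  have hμ : (-(D.j / D.σ D.j)) ≠ -1 := by
    intro h
    rw [neg_inj, div_eq_one_iff_eq hσj0] at h
    exact D.hj h.symm
  obtain ⟨U₁, U₂, hc, s1, s2, n1, n2⟩ := fitting_pair θ hμ hu0 hw0 hθu hθw T hθT (fun x y => map_add T x y)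
  rcases hI U₁ U₂ hc s1 s2 with h | h
  · exact n1 h
  · exact n2 h

end Pool.Agent.H4.TwistedPeriod
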