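import Mathlib

namespace Pool.Agent.H4.TwistedPeriod

/-- Data of a separable quadratic extension: the involution `σ`, a generator `j`, the
coefficients of its minimal polynomial and a `σ`-invariant nonzero functional `t`. -/
structure QD (F E : Type*) [Field F] [Field E] [Algebra F E] where
  σ : E →ₐ[F] E
  σσ : ∀ x, σ (σ x) = x
  j : E
  hj : σ j ≠ j
  a : F
  b : F
  jj : j * j = a • j - b • (1 : E)
  σj : σ j = a • (1 : E) - j
  span : ∀ l : E, ∃ x y : F, l = x • (1 : E) + y • j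
  t : E →ₗ[F] F
  tσ : ∀ x, t (σ x) = t x
  t0 : ∃ x, t x ≠ 0

variable {F E : Type*} [Field F] [Field E] [Algebra F E] (D : QD F E)
variable {V : Type*} [AddCommGroup V] [Module F V] [Module E V] [IsScalarTower F E V]

/-- A symmetric nondegenerate `F`-form for which `J` is adjoint to multiplication by `j`. -/
def SymJ (J : V →ₗ[F] V) : Prop :=
  ∃ f : V →ₗ[F] V →ₗ[F] F, (∀ u v, f u v = f v u) ∧ (∀ u, (∀ v, f u v = 0) → u = 0) ∧
    ∀ u v, f (D.j • u) v = f u (J v)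

/-- The quadratic relation for `J`. -/
def Quad (J : V →ₗ[F] V) : Prop := ∀ v, J (J v) = D.a • J v - D.b • v

omit [Module F V] [IsScalarTower F E V] in
lemma jj_smul (v : V) [Module F V] [IsScalarTower F E V] :
    D.j • D.j • v = D.a • D.j • v - D.b • v := by
  rw [smul_smul, D.jj, sub_smul, smul_assoc, smul_assoc, one_smul]

lemma σj_smul (v : V) : D.σ D.j • v = D.a • v - D.j • v := by
  rw [D.σj, sub_smul, smul_assoc, one_smul]

/-- A subspace stable under `j` is `E`-stable. -/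
def ofJ (U : Submodule F V) (h : ∀ v ∈ U, D.j • v ∈ U) : Submodule E V where
  carrier := U
  add_mem' := U.add_mem
  zero_mem' := U.zero_mem
  smul_mem' := by
    intro c v hv
    obtain ⟨x, y, rfl⟩ := D.span c
    rw [add_smul, smul_assoc, smul_assoc, one_smul]
    exact U.add_mem (U.smul_mem _ hv) (U.smul_mem _ (h v hv))

/-- Assembly of forms on a direct sum. -/
lemma symJ_of_isCompl {J : V →ₗ[F] V} {V₁ V₂ : Submodule E V} (hc : IsCompl V₁ V₂)
    (h₁ : ∀ v ∈ V₁, J v ∈ V₁) (h₂ : ∀ v ∈ V₂, J v ∈ V₂)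
    {J₁ : V₁ →ₗ[F] V₁} (hJ₁ : ∀ v : V₁, (J₁ v : V) = J v) (s₁ : SymJ D J₁)
    {J₂ : V₂ →ₗ[F] V₂} (hJ₂ : ∀ v : V₂, (J₂ v : V) = J v) (s₂ : SymJ D J₂) : SymJ D J := by
  obtain ⟨f₁, f₁s, f₁n, f₁j⟩ := s₁
  obtain ⟨f₂, f₂s, f₂n, f₂j⟩ := s₂
  set p₁ : V →ₗ[E] V₁ := V₁.projectionOnto V₂ hc with hp₁
  set p₂ : V →ₗ[E] V₂ := V₂.projectionOnto V₁ hc.symm with hp₂
  have q₁ : ∀ v ∈ V₁, ((p₁ v : V₁) : V) = v := fun v hv => by
    rw [hp₁, Submodule.projectionOnto_apply_of_mem_left hc hv]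
  have q₁' : ∀ v ∈ V₂, p₁ v = 0 := fun v hv =>
    (Submodule.projectionOnto_apply_eq_zero_iff hc).mpr hv
  have q₂ : ∀ v ∈ V₂, ((p₂ v : V₂) : V) = v := fun v hv => by
    rw [hp₂, Submodule.projectionOnto_apply_of_mem_left hc.symm hv]
  have q₂' : ∀ v ∈ V₁, p₂ v = 0 := fun v hv =>
    (Submodule.projectionOnto_apply_eq_zero_iff hc.symm).mpr hv
  have hsum : ∀ v : V, ∃ x ∈ V₁, ∃ y ∈ V₂, v = x + y := by
    intro v
    have : v ∈ V₁ ⊔ V₂ := by rw [hc.sup_eq_top]; trivial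
    obtain ⟨x, hx, y, hy, hxy⟩ := Submodule.mem_sup.mp this
    exact ⟨x, hx, y, hy, hxy.symm⟩
  have hpJ₁ : ∀ v, p₁ (J v) = J₁ (p₁ v) := by
    intro v
    obtain ⟨x, hx, y, hy, rfl⟩ := hsum v
    apply Subtype.ext
    rw [map_add J, map_add p₁, map_add p₁, q₁' y hy, q₁' (J y) (h₂ y hy), add_zero, add_zero, hJ₁,
      q₁ _ (h₁ x hx), q₁ x hx]
  have hpJ₂ : ∀ v, p₂ (J v) = J₂ (p₂ v) := by
    intro v
    obtain ⟨x, hx, y, hy, rfl⟩ := hsum v
    apply Subtype.ext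
    rw [map_add J, map_add p₂, map_add p₂, q₂' x hx, q₂' (J x) (h₁ x hx), zero_add, zero_add, hJ₂,
      q₂ _ (h₂ y hy), q₂ y hy]
  refine ⟨f₁.compl₁₂ (p₁.restrictScalars F) (p₁.restrictScalars F) +
    f₂.compl₁₂ (p₂.restrictScalars F) (p₂.restrictScalars F), ?_, ?_, ?_⟩
  · intro u v
    simp only [LinearMap.add_apply, LinearMap.compl₁₂_apply, LinearMap.coe_restrictScalars]
    rw [f₁s, f₂s]
  · intro u hu
    simp only [LinearMap.add_apply, LinearMap.compl₁₂_apply, LinearMap.coe_restrictScalars] at hu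
    have e₁ : p₁ u = 0 := by
      apply f₁n
      intro v
      have := hu (v : V)
      rw [q₂' v v.2, map_zero, add_zero] at this
      have e : p₁ (v : V) = v := Subtype.ext (q₁ v v.2)
      rwa [e] at this
    have e₂ : p₂ u = 0 := by
      apply f₂n
      intro v
      have := hu (v : V)
      rw [q₁' v v.2, map_zero, zero_add] at this
      have e : p₂ (v : V) = v := Subtype.ext (q₂ v v.2)
      rwa [e] at this
    have m₁ : u ∈ V₂ := (Submodule.projectionOnto_apply_eq_zero_iff hc).mp e₁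
    have m₂ : u ∈ V₁ := (Submodule.projectionOnto_apply_eq_zero_iff hc.symm).mp e₂
    have := hc.disjoint.le_bot (Submodule.mem_inf.mpr ⟨m₂, m₁⟩)
    exact (Submodule.mem_bot E).mp this
  · intro u v
    simp only [LinearMap.add_apply, LinearMap.compl₁₂_apply, LinearMap.coe_restrictScalars]
    rw [map_smul p₁, map_smul p₂, f₁j, f₂j, hpJ₁, hpJ₂]

end Pool.Agent.H4.TwistedPeriod
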