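import Pool.Agent.H4.TwistedPeriod.Setup

/-!
Every endomorphism of a finite dimensional space is self-adjoint for some symmetric
nondegenerate bilinear form (Frobenius, Taussky–Zassenhaus).
-/

open Polynomial

namespace Pool.Agent.H4.TwistedPeriod

section TZ

variable {E : Type*} [Field E]

lemma exists_trace (f : E[X]) (hf : f ≠ 0) :
    ∃ ℓ : (E[X] ⧸ (Ideal.span {f} : Ideal E[X])) →ₗ[E] E, ∀ a, (∀ b, ℓ (a * b) = 0) → a = 0 := by
  classical
  set g := normalize f with hg
  have hgm : g.Monic := Polynomial.monic_normalize hf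
  have hspan : (Ideal.span {f} : Ideal E[X]) = Ideal.span {g} := by
    rw [Ideal.span_singleton_eq_span_singleton]
    exact (normalize_associated f).symm
  rw [hspan]
  set I : Ideal E[X] := Ideal.span {g} with hI
  set d := g.natDegree with hd
  let ℓ₀ : E[X] →ₗ[E] E := (Polynomial.lcoeff E (d - 1)) ∘ₗ (Polynomial.modByMonicHom g)
  have hℓ₀ : ∀ p, ℓ₀ p = (p %ₘ g).coeff (d - 1) := fun p => rfl
  have hker : I.restrictScalars E ≤ LinearMap.ker ℓ₀ := by
    intro p hp
    rw [LinearMap.mem_ker, hℓ₀]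
    have : g ∣ p := Ideal.mem_span_singleton.mp hp
    rw [(Polynomial.modByMonic_eq_zero_iff_dvd hgm).mpr this]
    simp
  let ℓ : (E[X] ⧸ I) →ₗ[E] E :=
    (Submodule.liftQ (I.restrictScalars E) ℓ₀ hker) ∘ₗ
      ((Submodule.Quotient.restrictScalarsEquiv E I).symm : (E[X] ⧸ I) →ₗ[E] _)
  have hℓ : ∀ p, ℓ (Ideal.Quotient.mk I p) = ℓ₀ p := fun p => rfl
  refine ⟨ℓ, fun a ha => ?_⟩
  obtain ⟨p, rfl⟩ := Ideal.Quotient.mk_surjective a
  set r := p %ₘ g with hr
  have hpr : Ideal.Quotient.mk I p = Ideal.Quotient.mk I r := by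
    rw [Ideal.Quotient.eq, hI, Ideal.mem_span_singleton]
    have := Polynomial.modByMonic_add_div p g
    refine ⟨p /ₘ g, ?_⟩
    rw [← this]
    simp only [hr]
    ring_nf
    simp [this]
  rw [hpr] at ha ⊢
  by_contra hne
  have hr0 : r ≠ 0 := by
    intro h
    apply hne
    rw [h, map_zero]
  have hdeg : r.natDegree < d := Polynomial.natDegree_modByMonic_lt p hgm (by
    intro h1
    apply hr0
    rw [hr, h1, Polynomial.modByMonic_one])
  have h1 := ha (Ideal.Quotient.mk I (X ^ (d - 1 - r.natDegree)))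
  rw [← map_mul, hℓ, hℓ₀] at h1
  have hdeg2 : (r * X ^ (d - 1 - r.natDegree)).natDegree = d - 1 := by
    rw [Polynomial.natDegree_mul_X_pow _ hr0]
    omega
  have h2 : (r * X ^ (d - 1 - r.natDegree)) %ₘ g = r * X ^ (d - 1 - r.natDegree) := by
    rw [Polynomial.modByMonic_eq_self_iff hgm]
    apply Polynomial.degree_lt_degree
    rw [hdeg2]
    omega
  have h3 : (r * X ^ (d - 1 - r.natDegree)).coeff (d - 1) = r.leadingCoeff := by
    have : d - 1 = r.natDegree + (d - 1 - r.natDegree) := by omega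
    conv_lhs => rw [this, ← this]
    rw [Polynomial.coeff_mul_X_pow']
    rw [if_pos (by omega)]
    congr 1
    omega
  rw [h2, h3] at h1
  exact hr0 (Polynomial.leadingCoeff_eq_zero.mp h1)

lemma exists_form_E {V : Type*} [AddCommGroup V] [Module E V] [FiniteDimensional E V]
    (z : V →ₗ[E] V) : ∃ β : V →ₗ[E] V →ₗ[E] E, (∀ u v, β u v = β v u) ∧
      (∀ u, (∀ v, β u v = 0) → u = 0) ∧ ∀ u v, β (z u) v = β u (z v) := by
  classical
  obtain ⟨ι, _, p, hp, e, ⟨φ⟩⟩ :=
    Module.equiv_directSum_of_isTorsion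
      (Module.AEval.isTorsion_of_finiteDimensional E V z : Module.IsTorsion E[X] (Module.AEval' z))
  choose ℓ hℓ using fun i => exists_trace (p i ^ e i) (pow_ne_zero _ (hp i).ne_zero)
  let A : V → ∀ i, (E[X] ⧸ (Ideal.span {p i ^ e i} : Ideal E[X])) :=
    fun u i => φ (Module.AEval'.of z u) i
  have Aadd : ∀ u v i, A (u + v) i = A u i + A v i := fun u v i => by
    simp only [A, map_add, DirectSum.add_apply]
  have Asmul : ∀ (c : E) u i, A (c • u) i = c • A u i := fun c u i => by
    have h1 : Module.AEval'.of z (c • u) = (C c : E[X]) • Module.AEval'.of z u := by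
      rw [Module.AEval.C_smul, map_smul]
    have h2 : ∀ y : E[X] ⧸ (Ideal.span {p i ^ e i} : Ideal E[X]), (C c : E[X]) • y = c • y := by
      intro y
      rw [← Polynomial.algebraMap_eq, algebraMap_smul]
    simp only [A]
    rw [h1, map_smul, DirectSum.smul_apply]
    exact h2 _
  have AX : ∀ u i, A (z u) i = (X : E[X]) • A u i := fun u i => by
    simp only [A]
    rw [← Module.AEval'.X_smul_of, map_smul, DirectSum.smul_apply]
  have Ainj : ∀ u, (∀ i, A u i = 0) → u = 0 := by
    intro u hu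
    have : φ (Module.AEval'.of z u) = 0 := DFinsupp.ext hu
    simpa using this
  have Asurj : ∀ i y, ∃ v, A v i = y ∧ ∀ k, k ≠ i → A v k = 0 := by
    intro i y
    refine ⟨(Module.AEval'.of z).symm (φ.symm (DirectSum.of _ i y)), ?_, ?_⟩
    · simp only [A, LinearEquiv.apply_symm_apply]
      exact DirectSum.of_eq_same _ _
    · intro k hk
      simp only [A, LinearEquiv.apply_symm_apply]
      exact DirectSum.of_eq_of_ne _ _ _ hk
  let β : V →ₗ[E] V →ₗ[E] E := LinearMap.mk₂ E (fun u v => ∑ i, ℓ i (A u i * A v i))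
    (fun u u' v => by simp only [Aadd, add_mul, map_add, Finset.sum_add_distrib])
    (fun c u v => by simp only [Asmul, smul_mul_assoc, map_smul, Finset.smul_sum])
    (fun u v v' => by simp only [Aadd, mul_add, map_add, Finset.sum_add_distrib])
    (fun c u v => by simp only [Asmul, mul_smul_comm, map_smul, Finset.smul_sum])
  have hβ : ∀ u v, β u v = ∑ i, ℓ i (A u i * A v i) := fun u v => rfl
  refine ⟨β, ?_, ?_, ?_⟩
  · intro u v
    rw [hβ, hβ]
    exact Finset.sum_congr rfl fun i _ => by rw [mul_comm]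
  · intro u hu
    apply Ainj
    intro i
    apply hℓ i
    intro b
    obtain ⟨v, hv, hv'⟩ := Asurj i b
    have := hu v
    rw [hβ, Finset.sum_eq_single i] at this
    · rwa [hv] at this
    · intro k _ hk
      rw [hv' k hk, mul_zero, map_zero]
    · intro h
      exact absurd (Finset.mem_univ _) h
  · intro u v
    rw [hβ, hβ]
    exact Finset.sum_congr rfl fun i _ => by rw [AX, AX, smul_mul_assoc, mul_smul_comm]

end TZ

section F1

variable {F E : Type*} [Field F] [Field E] [Algebra F E] (D : QD F E)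
variable {V : Type*} [AddCommGroup V] [Module F V] [Module E V] [IsScalarTower F E V]

include D in
/-- The form `f₁`. -/
lemma exists_f₁ [FiniteDimensional E V] (z : V →ₗ[E] V) :
    ∃ f : V →ₗ[F] V →ₗ[F] F, (∀ u v, f u v = f v u) ∧ (∀ u, (∀ v, f u v = 0) → u = 0) ∧
      (∀ (c : E) u v, f (c • u) v = f u (c • v)) ∧ ∀ u v, f (z u) v = f u (z v) := by
  obtain ⟨β, βs, βn, βz⟩ := exists_form_E z
  have hF : ∀ (c : F) (u : V), c • u = (algebraMap F E c) • u := fun c u => by
    rw [algebraMap_smul]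
  let f : V →ₗ[F] V →ₗ[F] F := LinearMap.mk₂ F (fun u v => D.t (β u v))
    (fun u u' v => by simp only [map_add, LinearMap.add_apply])
    (fun c u v => by rw [hF, map_smul, LinearMap.smul_apply, algebraMap_smul, map_smul])
    (fun u v v' => by simp only [map_add])
    (fun c u v => by rw [hF, map_smul, algebraMap_smul, map_smul])
  have hf : ∀ u v, f u v = D.t (β u v) := fun u v => rfl
  refine ⟨f, ?_, ?_, ?_, ?_⟩
  · intro u v
    rw [hf, hf, βs]
  · intro u hu
    apply βn
    intro v
    by_contra hne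
    obtain ⟨x, hx⟩ := D.t0
    have := hu ((x / β u v) • v)
    rw [hf, map_smul, smul_eq_mul, div_mul_cancel₀ _ hne] at this
    exact hx this
  · intro c u v
    rw [hf, hf, map_smul, map_smul, LinearMap.smul_apply]
  · intro u v
    rw [hf, hf, βz]

end F1

end Pool.Agent.H4.TwistedPeriod
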